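import Mathlib

/-!
# Riemannian metrics on the two-sphere: curvature and geodesics

The two-sphere is the unit sphere of `R3 = EuclideanSpace ℝ (Fin 3)`.
-/

namespace Pool.Agent.Lib.MP_d2b992_gt

open Set
open scoped InnerProductSpace ContDiff

/-- Euclidean three-space. -/
abbrev R3 : Type := EuclideanSpace ℝ (Fin 3)

/-- A smooth Riemannian metric on the unit sphere of `R3`: a field of symmetric bilinear forms
`g x` on `R3` which depends smoothly on `x` near the unit sphere and which is positive definite on 
the tangent plane of the sphere at each of its points. Only the restriction of `g x` to the tangent 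
plane at the points `x` of the sphere matters (every smooth metric on the sphere is of this form). 
-/
structure SphereMetric where
  /-- The inner product `g x v w` of `v` and `w` at the point `x`. -/
  g : R3 → R3 → R3 → ℝ
  add : ∀ x u v w, g x (u + v) w = g x u w + g x v w
  smul : ∀ x (a : ℝ) v w, g x (a • v) w = a * g x v w
  symm : ∀ x v w, g x v w = g x w v
  smooth : ∀ v w x, ‖x‖ = 1 → ContDiffAt ℝ ∞ (fun y => g y v w) x
  pos : ∀ x v, ‖x‖ = 1 → ⟪x, v⟫_ℝ = 0 → v ≠ 0 → 0 < g x v v

/-- Inverse stereographic projection from the pole `(0, 0, -s)` of the unit sphere (for `s = 1` and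
for `s = -1`). These two maps parametrize the complement of the south pole and of the north pole. 
-/
noncomputable def stereo (s : ℝ) (p : ℝ × ℝ) : R3 := 
  (1 + p.1 ^ 2 + p.2 ^ 2)⁻¹ • !₂[2 * p.1, 2 * p.2, s * (1 - p.1 ^ 2 - p.2 ^ 2)]

/-- Partial derivative in the first variable. -/
noncomputable def du {X : Type*} [NormedAddCommGroup X] [NormedSpace ℝ X] (f : ℝ × ℝ → X) 
    (p : ℝ × ℝ) : X := fderiv ℝ f p (1, 0)

/-- Partial derivative in the second variable. -/
noncomputable def dv {X : Type*} [NormedAddCommGroup X] [NormedSpace ℝ X] (f : ℝ × ℝ → X) 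
    (p : ℝ × ℝ) : X := fderiv ℝ f p (0, 1)

/-- The Gaussian curvature of the metric `E du² + 2 F du dv + G dv²` (Brioschi formula). -/
noncomputable def brioschi (E F G : ℝ × ℝ → ℝ) (p : ℝ × ℝ) : ℝ := 
  (Matrix.det !![-(dv (dv E) p) / 2 + du (dv F) p - du (du G) p / 2, du E p / 2, 
                  du F p - dv E p / 2;
                 dv F p - du G p / 2, E p, F p;
                 dv G p / 2, F p, G p]
    - Matrix.det !![0, dv E p / 2, du G p / 2; 
                    dv E p / 2, E p, F p; 
                    du G p / 2, F p, G p]) / (E p * G p - F p ^ 2) ^ 2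

namespace SphereMetric

/-- The coefficient `E` of the metric in the stereographic chart. -/
noncomputable def cE (M : SphereMetric) (s : ℝ) (p : ℝ × ℝ) : ℝ := 
  M.g (stereo s p) (du (stereo s) p) (du (stereo s) p)

/-- The coefficient `F` of the metric in the stereographic chart. -/
noncomputable def cF (M : SphereMetric) (s : ℝ) (p : ℝ × ℝ) : ℝ := 
  M.g (stereo s p) (du (stereo s) p) (dv (stereo s) p)

/-- The coefficient `G` of the metric in the stereographic chart. -/
noncomputable def cG (M : SphereMetric) (s : ℝ) (p : ℝ × ℝ) : ℝ := 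
  M.g (stereo s p) (dv (stereo s) p) (dv (stereo s) p)

/-- The Gaussian curvature of the metric at the point `stereo s p` of the sphere. -/
noncomputable def curvature (M : SphereMetric) (s : ℝ) (p : ℝ × ℝ) : ℝ := 
  brioschi (M.cE s) (M.cF s) (M.cG s) p

/-- The metric has positive curvature at every point of the sphere. -/
def PositiveCurvature (M : SphereMetric) : Prop := 
  ∀ s, (s = 1 ∨ s = -1) → ∀ p, 0 < M.curvature s p

/-- Unit speed geodesics, defined on the whole real line: the smooth unit speed curves on the
sphere which are critical for the energy functional, that is, which satisfy the Euler equation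
`d/dt g(γ)(γ', w) = 1/2 (D_w g)(γ)(γ', γ')` for each vector `w` tangent to the sphere at `γ t`. -/
structure IsGeodesic (M : SphereMetric) (γ : ℝ → R3) : Prop where
  smooth : ContDiff ℝ ∞ γ
  mem : ∀ t, ‖γ t‖ = 1
  unit_speed : ∀ t, M.g (γ t) (deriv γ t) (deriv γ t) = 1
  euler : ∀ t w, ⟪γ t, w⟫_ℝ = 0 → deriv (fun s => M.g (γ s) (deriv γ s) w) t = 
    1 / 2 * fderiv ℝ (fun y => M.g y (deriv γ t) (deriv γ t)) (γ t) w

end SphereMetric

/-- The curve is everywhere dense in the sphere. -/
def EverywhereDense (γ : ℝ → R3) : Prop := Metric.sphere (0 : R3) 1 ⊆ closure (range γ)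

end Pool.Agent.Lib.MP_d2b992_gt
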