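import Mathlib
import Pool.Agent.Lib.MP_d2b992_gt.Erg.CurvF

section
/-!
# Denjoy's theorem for lifts of circle homeomorphisms with bounded distortion
-/
namespace Pool.Agent.Lib.MP_d2b992_gt.Denjoy

open MeasureTheory

/-- The map `z ↦ f^n z + k`. -/
def cp (f : ℝ ≃o ℝ) (n k : ℤ) (z : ℝ) : ℝ := (f ^ n) z + k

variable {f : ℝ ≃o ℝ}

theorem cp_lt (n k : ℤ) {x y : ℝ} : cp f n k x < cp f n k y ↔ x < y := by
  simp [cp]

theorem cp_le (n k : ℤ) {x y : ℝ} : cp f n k x ≤ cp f n k y ↔ x ≤ y := by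
  simp [cp]

theorem pow_add_int (hf : ∀ x, f (x + 1) = f x + 1) (n k : ℤ) (x : ℝ) :
    (f ^ n) (x + k) = (f ^ n) x + k := by
  have h1 : ∀ x : ℝ, ∀ k : ℕ, f (x + k) = f x + k := by
    intro x k
    induction k with
    | zero => simp
    | succ k ih => 
      push_cast
      rw [← add_assoc, hf, ih, add_assoc]
  have h2 : ∀ x : ℝ, ∀ k : ℤ, f (x + k) = f x + k := by
    intro x k
    obtain ⟨m, rfl | rfl⟩ := k.eq_nat_or_neg
    · exact_mod_cast h1 x m
    · have := h1 (x + ((-(m:ℤ) : ℤ) : ℝ)) m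
      push_cast at this ⊢
      rw [neg_add_cancel_right] at this
      linarith
  have h3 : ∀ x : ℝ, ∀ k : ℤ, f.symm (x + k) = f.symm x + k := by
    intro x k
    apply f.injective
    rw [h2]
    simp
  have h4 : ∀ m : ℕ, ∀ x : ℝ, (f ^ m) (x + k) = (f ^ m) x + k := by
    intro m
    induction m with
    | zero => intro x; simp
    | succ m ih =>
      intro x
      rw [pow_succ]
      simp only [RelIso.mul_apply]
      rw [h2, ih]
  have h5 : ∀ m : ℕ, ∀ x : ℝ, ((f ^ m)⁻¹ : ℝ ≃o ℝ) (x + k) = ((f ^ m)⁻¹ : ℝ ≃o ℝ) x + k := by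
    intro m x
    apply (f ^ m).injective
    rw [h4]
    simp
  obtain ⟨m, rfl | rfl⟩ := n.eq_nat_or_neg
  · simpa using h4 m x
  · simpa using h5 m x

theorem cp_cp (hf : ∀ x, f (x + 1) = f x + 1) (n k m l : ℤ) (z : ℝ) :
    cp f n k (cp f m l z) = cp f (n + m) (k + l) z := by
  unfold cp
  rw [pow_add_int hf, zpow_add]
  simp only [RelIso.mul_apply]
  push_cast
  ring

theorem cp_zero (z : ℝ) : cp f 0 0 z = z := by simp [cp]

theorem cp_inv (hf : ∀ x, f (x + 1) = f x + 1) (n k : ℤ) (z : ℝ) :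
    cp f (-n) (-k) (cp f n k z) = z := by
  rw [cp_cp hf]
  simp [cp]

/-- Intervals whose integer translates are pairwise disjoint have total length at most one. -/
theorem sum_length_le_one {ι : Type*} [DecidableEq ι] (I : Finset ι) (p q : ι → ℝ)
    (hpq : ∀ i ∈ I, p i < q i)
    (hd : ∀ i ∈ I, ∀ j ∈ I, ∀ k : ℤ, (i ≠ j ∨ k ≠ 0) → q i ≤ p j + k ∨ q j + k ≤ p i) :
    ∑ i ∈ I, (q i - p i) ≤ 1 := by
  rcases I.eq_empty_or_nonempty with rfl | ⟨i0, hi0⟩
  · simp
  set kk : ι → ℤ := fun i => -⌊p i - p i0⌋ with hkk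
  have hk1 : ∀ i, p i0 ≤ p i + kk i := by
    intro i
    have := Int.floor_le (p i - p i0)
    simp only [hkk]
    push_cast
    linarith
  have hk2 : ∀ i, p i + kk i < p i0 + 1 := by
    intro i
    have := Int.lt_floor_add_one (p i - p i0)
    simp only [hkk]
    push_cast
    linarith
  have hq : ∀ i ∈ I, q i + kk i ≤ p i0 + 1 := by
    intro i hi
    have hne : i ≠ i0 ∨ (1 - kk i) ≠ 0 := by
      by_cases h : i = i0
      · right
        subst h
        simp [hkk]
      · left; exact h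
    rcases hd i hi i0 hi0 (1 - kk i) hne with h | h
    · push_cast at h
      linarith
    · push_cast at h
      have := hk2 i
      have := hpq i0 hi0
      linarith
  have hdis : Set.PairwiseDisjoint (↑I : Set ι) (fun i => Set.Ioo (p i + kk i) (q i + kk i)) := by
    intro i hi j hj hij
    rw [Function.onFun, Set.disjoint_left]
    rintro x ⟨hx1, hx2⟩ ⟨hx3, hx4⟩
    rcases hd i hi j hj (kk j - kk i) (Or.inl hij) with h | h
    · push_cast at h
      linarith
    · push_cast at h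
      linarith
  have hvol : volume (⋃ i ∈ I, Set.Ioo (p i + kk i) (q i + kk i)) = 
      ∑ i ∈ I, volume (Set.Ioo (p i + (kk i:ℝ)) (q i + kk i)) :=
    measure_biUnion_finset hdis (fun i _ => measurableSet_Ioo)
  have hsub : (⋃ i ∈ I, Set.Ioo (p i + (kk i:ℝ)) (q i + kk i)) ⊆ Set.Icc (p i0) (p i0 + 1) := by
    intro x hx
    simp only [Set.mem_iUnion, Set.mem_Ioo, exists_prop] at hx
    obtain ⟨i, hi, h1, h2⟩ := hx
    exact ⟨by linarith [hk1 i], by linarith [hq i hi]⟩
  have hle := measure_mono (μ := volume) hsub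
  rw [hvol] at hle
  simp only [Real.volume_Ioo, Real.volume_Icc] at hle
  have h3 : ∑ i ∈ I, ENNReal.ofReal (q i + kk i - (p i + kk i)) 
      = ENNReal.ofReal (∑ i ∈ I, (q i - p i)) := by
    rw [ENNReal.ofReal_sum_of_nonneg]
    · apply Finset.sum_congr rfl
      intro i _
      congr 1
      ring
    · intro i hi
      linarith [hpq i hi]
  rw [h3] at hle
  have : p i0 + 1 - p i0 = 1 := by ring
  rw [this, ENNReal.ofReal_le_ofReal_iff (by norm_num)] at hle
  exact hle

/-- Data of a wandering interval `(a,b)`. -/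
structure Wand (f : ℝ ≃o ℝ) (a b : ℝ) : Prop where
  lt : a < b
  dis : ∀ n k : ℤ, (n ≠ 0 ∨ k ≠ 0) → cp f n k b ≤ a ∨ b ≤ cp f n k a

/-- No periodic points. -/
def NoPer (f : ℝ ≃o ℝ) : Prop := ∀ n : ℤ, n ≠ 0 → ∀ k : ℤ, ∀ x : ℝ, (f ^ n) x ≠ x + k

section wand

variable {a b : ℝ} (hf : ∀ x, f (x + 1) = f x + 1) (hW : Wand f a b)

include hf hW

theorem Wand.dis2 (n k m l : ℤ) (h : n ≠ m ∨ k ≠ l) :
    cp f n k b ≤ cp f m l a ∨ cp f m l b ≤ cp f n k a := by
  have h1 := hW.dis (n - m) (k - l) (by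
    rcases h with h | h
    · left; omega
    · right; omega)
  have e : ∀ z, cp f m l (cp f (n - m) (k - l) z) = cp f n k z := by
    intro z
    rw [cp_cp hf]
    congr 1 <;> ring
  rcases h1 with h1 | h1
  · left
    rw [← e b]
    exact (cp_le m l).2 h1
  · right
    rw [← e a]
    exact (cp_le m l).2 h1

theorem Wand.ne (n k m l : ℤ) (h : n ≠ m ∨ k ≠ l) : cp f n k a ≠ cp f m l a := by
  intro he
  have h1 := (cp_lt (f := f) n k).2 hW.lt
  have h2 := (cp_lt (f := f) m l).2 hW.lt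
  rcases hW.dis2 hf n k m l h with h3 | h3 <;> linarith

theorem Wand.le_of_lt (n k m l : ℤ) (h : cp f n k a < cp f m l a) :
    cp f n k b ≤ cp f m l a := by
  have h0 : n ≠ m ∨ k ≠ l := by
    by_contra hc
    push Not at hc
    obtain ⟨rfl, rfl⟩ := hc
    exact lt_irrefl _ h
  have h2 := (cp_lt (f := f) m l).2 hW.lt
  rcases hW.dis2 hf n k m l h0 with h3 | h3
  · exact h3
  · linarith

/-- The total length of distinct copies is at most one. -/
theorem Wand.sum_le (I : Finset ℤ) : ∑ n ∈ I, ((f ^ n) b - (f ^ n) a) ≤ 1 := by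
  apply sum_length_le_one I (fun n => (f ^ n) a) (fun n => (f ^ n) b)
  · intro i _
    exact (f ^ i).strictMono hW.lt
  · intro i _ j _ k h
    have := hW.dis2 hf i 0 j k (by
      rcases h with h | h
      · left; exact h
      · right; exact fun h' => h h'.symm)
    simpa [cp] using this

/-- There are records: copies close to the right of `a`. -/
theorem Wand.record (hper : NoPer f) (N : ℕ) : ∃ n k : ℤ, (N : ℤ) < |n| ∧ a < cp f n k a ∧
    ∀ i l : ℤ, |i| < |n| → ¬ (a < cp f i l a ∧ cp f i l a < cp f n k a) := by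
  classical
  -- the nearest copy with index `i`
  set r : ℤ → ℤ := fun i => ⌊a - (f ^ i) a⌋ + 1 with hr
  have r1 : ∀ i, a < cp f i (r i) a := by
    intro i
    have := Int.lt_floor_add_one (a - (f ^ i) a)
    simp only [cp, hr]
    push_cast
    linarith
  have r2 : ∀ i, cp f i (r i) a ≤ a + 1 := by
    intro i
    have := Int.floor_le (a - (f ^ i) a)
    simp only [cp, hr]
    push_cast
    linarith
  have r3 : ∀ i l : ℤ, a < cp f i l a → cp f i (r i) a ≤ cp f i l a := by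
    intro i l h
    simp only [cp] at h ⊢
    have : r i ≤ l := by
      simp only [hr]
      have : ⌊a - (f ^ i) a⌋ < l := by
        rw [Int.floor_lt]
        linarith
      omega
    have : ((r i : ℤ) : ℝ) ≤ l := by exact_mod_cast this
    linarith
  -- minimum over |i| ≤ N
  obtain ⟨j, hjN, hj⟩ := (Finset.Icc (-(N:ℤ)) N).exists_min_image (fun i => cp f i (r i) a)
    ⟨0, by simp⟩
  rw [Finset.mem_Icc] at hjN
  -- some index beyond N is smaller
  have key : ∃ i : ℤ, (N:ℤ) < |i| ∧ cp f i (r i) a < cp f j (r j) a := by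
    by_contra hc
    push Not at hc
    have hall : ∀ i : ℤ, cp f j (r j) a ≤ cp f i (r i) a := by
      intro i
      by_cases h : (N:ℤ) < |i|
      · exact hc i h
      · push Not at h
        apply hj
        rw [Finset.mem_Icc]
        exact abs_le.1 h
    have hall2 : ∀ i l : ℤ, ¬ (a < cp f i l a ∧ cp f i l a < cp f j (r j) a) := by
      rintro i l ⟨h1, h2⟩
      linarith [hall i, r3 i l h1]
    by_cases hj0 : j = 0
    · subst hj0
      have e0 : cp f 0 (r 0) a = a + 1 := by simp [cp, hr]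
      have h1 := hall 1
      rw [e0] at h1
      have h2 := r2 1
      have h3 : cp f 1 (r 1) a = a + 1 := le_antisymm h2 h1
      apply hper 1 one_ne_zero (1 - r 1) a
      simp only [cp] at h3
      push_cast
      linarith
    · -- iterate g = cp j (r j)
      have hg : ∀ m : ℕ, cp f (j * m) (r j * m) a < cp f (j * (m + 1)) (r j * (m + 1)) a := by
        intro m
        have e : cp f (j * (m + 1)) (r j * (m + 1)) a 
            = cp f (j * m) (r j * m) (cp f j (r j) a) := by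
          rw [cp_cp hf]
          congr 1 <;> ring
        rw [e, cp_lt]
        exact r1 j
      have hgno : ∀ m : ℕ, ∀ i l : ℤ, ¬ (cp f (j * m) (r j * m) a < cp f i l a ∧ 
          cp f i l a < cp f (j * (m + 1)) (r j * (m + 1)) a) := by
        rintro m i l ⟨h1, h2⟩
        have e : cp f (j * (m + 1)) (r j * (m + 1)) a 
            = cp f (j * m) (r j * m) (cp f j (r j) a) := by
          rw [cp_cp hf]
          congr 1 <;> ring
        have e2 : cp f i l a = cp f (j * m) (r j * m) (cp f (i - j * m) (l - r j * m) a) := by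
          rw [cp_cp hf]
          congr 1 <;> ring
        rw [e2, cp_lt] at h1
        rw [e, e2, cp_lt] at h2
        exact hall2 _ _ ⟨h1, h2⟩
      -- either all stay below a+1 or not
      by_cases hb : ∀ m : ℕ, cp f (j * m) (r j * m) a ≤ a + 1
      · -- converge to a fixed point
        set u : ℕ → ℝ := fun m => cp f (j * m) (r j * m) a with hu
        have hmono : Monotone u := by
          apply monotone_nat_of_le_succ
          intro m
          have := (hg m).le
          simp only [hu]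
          push_cast
          exact this
        have hbdd : BddAbove (Set.range u) := ⟨a + 1, by rintro _ ⟨m, rfl⟩; exact hb m⟩
        have hlim := tendsto_atTop_ciSup hmono hbdd
        set z := ⨆ i, u i
        have hcont : Continuous (fun x => cp f j (r j) x) := by
          unfold cp
          exact ((f ^ j).continuous).add continuous_const
        have h1 : Filter.Tendsto (fun m => cp f j (r j) (u m)) Filter.atTop 
            (nhds (cp f j (r j) z)) := (hcont.tendsto z).comp hlim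
        have h2 : (fun m => cp f j (r j) (u m)) = fun m => u (m + 1) := by
          funext m
          simp only [hu]
          rw [cp_cp hf]
          push_cast
          congr 1 <;> ring
        rw [h2] at h1
        have h3 := hlim.comp (Filter.tendsto_add_atTop_nat 1)
        have h4 := tendsto_nhds_unique h1 h3
        apply hper j hj0 (-(r j)) z
        simp only [cp] at h4
        push_cast
        linarith
      · push Not at hb
        have hfind := Nat.find_spec hb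
        set M := Nat.find hb with hM
        have hM0 : M ≠ 0 := by
          intro h0
          rw [h0] at hfind
          simp [cp] at hfind
          linarith
        obtain ⟨m, hm⟩ := Nat.exists_eq_succ_of_ne_zero hM0
        have hmin : cp f (j * m) (r j * m) a ≤ a + 1 := by
          have := Nat.find_min hb (m := m) (by omega)
          push Not at this
          exact this
        rw [hm] at hfind
        push_cast at hfind
        have ha1 : cp f 0 1 a = a + 1 := by simp [cp]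
        have hne : cp f (j * m) (r j * m) a ≠ cp f 0 1 a := by
          by_cases hm0 : m = 0
          · subst hm0
            simp [cp]
          · apply hW.ne hf
            left
            apply mul_ne_zero hj0
            exact_mod_cast hm0
        apply hgno m 0 1
        rw [ha1] at hne ⊢
        exact ⟨lt_of_le_of_ne hmin hne, hfind⟩
  -- take the smallest |i|
  have eabs : ∀ i : ℤ, |i| = (i.natAbs : ℤ) := Int.abs_eq_natAbs
  have hex : ∃ q : ℕ, ∃ i : ℤ, i.natAbs = q ∧ N < q ∧ cp f i (r i) a < cp f j (r j) a := by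
    obtain ⟨i, h1, h2⟩ := key
    rw [eabs] at h1
    exact ⟨i.natAbs, i, rfl, by omega, h2⟩
  obtain ⟨i, hi1, hi2, hi3⟩ := Nat.find_spec hex
  refine ⟨i, r i, by rw [eabs]; omega, r1 i, ?_⟩
  rintro i' l' hlt ⟨h1, h2⟩
  rw [eabs, eabs] at hlt
  have h3 := r3 i' l' h1
  have h4 : cp f j (r j) a ≤ cp f i' (r i') a := by
    by_cases h : (N:ℤ) < |i'|
    · by_contra hc
      push Not at hc
      rw [eabs] at h
      have hmin := Nat.find_min hex (m := i'.natAbs) (by omega)
      exact hmin ⟨i', rfl, by omega, hc⟩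
    · push Not at h
      apply hj
      rw [Finset.mem_Icc]
      exact abs_le.1 h
  linarith

theorem Wand.arcs {n k : ℤ} (h1 : a < cp f n k a)
    (h2 : ∀ i l : ℤ, |i| < |n| → ¬ (a < cp f i l a ∧ cp f i l a < cp f n k a))
    (I : Finset ℤ) (hI : ∀ i ∈ I, ∀ j ∈ I, |i - j| < |n|) :
    ∑ i ∈ I, ((f ^ i) (cp f n k a) - (f ^ i) a) ≤ 1 := by
  apply sum_length_le_one I (fun i => (f ^ i) a) (fun i => (f ^ i) (cp f n k a))
  · intro i _
    exact (f ^ i).strictMono h1
  · intro i hi j hj k' hne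
    by_contra hc
    push Not at hc
    obtain ⟨c1, c2⟩ := hc
    have d1 := hI j hj i hi
    have d2 := hI i hi j hj
    set a' := cp f n k a with ha'
    have e1 : cp f (-i) 0 ((f ^ i) a') = a' := by
      simp [cp]
    have e1a : cp f (-i) 0 ((f ^ i) a) = a := by
      simp [cp]
    have e2 : ∀ z, cp f (-i) 0 ((f ^ j) z + k') = cp f (j - i) k' z := by
      intro z
      have := cp_cp hf (-i) 0 j k' z
      have e3 : cp f j k' z = (f ^ j) z + k' := rfl
      rw [e3] at this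
      rw [this]
      congr 1 <;> ring
    have c1' : cp f (j - i) k' a < a' := by
      rw [← e1, ← e2]
      exact (cp_lt _ _).2 c1
    have c2' : a < cp f (j - i) k' a' := by
      rw [← e1a, ← e2]
      exact (cp_lt _ _).2 c2
    have hne' : cp f (j - i) k' a ≠ cp f 0 0 a := by
      apply hW.ne hf
      rcases hne with h | h
      · left; omega
      · right; exact h
    rw [cp_zero] at hne'
    rcases lt_or_gt_of_ne hne' with h3 | h3
    · -- use the inverse
      have e4 : ∀ z, cp f (i - j) (-k') (cp f (j - i) k' z) = z := by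
        intro z
        have := cp_inv hf (j - i) k' z
        have e5 : -(j - i) = i - j := by ring
        rwa [e5] at this
      have h4 : a < cp f (i - j) (-k') a := by
        have := (cp_lt (f := f) (i - j) (-k')).2 h3
        rwa [e4] at this
      have h5 : cp f (i - j) (-k') a < a' := by
        have := (cp_lt (f := f) (i - j) (-k')).2 c2'
        rwa [e4] at this
      exact h2 _ _ d2 ⟨h4, h5⟩
    · exact h2 _ _ d1 ⟨h3, c1'⟩

end wand

/-- Bounded distortion of `f`: relative lengths of subintervals change little. -/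
def Dist (f : ℝ → ℝ) (C : ℝ) : Prop := 0 ≤ C ∧ ∀ a b c d A B : ℝ, A ≤ a → a < b → b ≤ B →
  A ≤ c → c < d → d ≤ B →
  (f b - f a) * (d - c) ≤ Real.exp (C * (B - A)) * ((f d - f c) * (b - a))

theorem tele {C : ℝ} (hD : Dist f C) (a b c d : ℝ) (hab : a < b) (hbc : b ≤ c) (hcd : c < d)
    (s : ℤ) (q : ℕ) :
    ((f ^ (s + q)) b - (f ^ (s + q)) a) * ((f ^ s) d - (f ^ s) c) ≤ 
      Real.exp (C * ∑ i ∈ Finset.range q, ((f ^ (s + i)) d - (f ^ (s + i)) a)) *
      (((f ^ (s + q)) d - (f ^ (s + q)) c) * ((f ^ s) b - (f ^ s) a)) ∧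
    ((f ^ (s + q)) d - (f ^ (s + q)) c) * ((f ^ s) b - (f ^ s) a) ≤ 
      Real.exp (C * ∑ i ∈ Finset.range q, ((f ^ (s + i)) d - (f ^ (s + i)) a)) *
      (((f ^ (s + q)) b - (f ^ (s + q)) a) * ((f ^ s) d - (f ^ s) c)) := by
  induction q with
  | zero => 
    simp only [Nat.cast_zero, add_zero, Finset.range_zero, Finset.sum_empty, mul_zero,
      Real.exp_zero, one_mul]
    constructor <;> apply le_of_eq <;> ring
  | succ q ih =>
    obtain ⟨ih1, ih2⟩ := ih
    rw [Finset.sum_range_succ, mul_add, Real.exp_add]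
    set E := Real.exp (C * ∑ i ∈ Finset.range q, ((f ^ (s + i)) d - (f ^ (s + i)) a)) with hE
    set S := s + (q : ℤ) with hS
    have hSq : s + ((q + 1 : ℕ) : ℤ) = 1 + S := by push_cast; ring
    rw [hSq]
    have hstep : ∀ z, (f ^ (1 + S)) z = f ((f ^ S) z) := by
      intro z
      rw [zpow_add, zpow_one]
      rfl
    simp only [hstep]
    have ha' := (f ^ S).strictMono hab
    have hc' := (f ^ S).strictMono hcd
    have hb' := (f ^ S).monotone hbc
    have ha0 := (f ^ s).strictMono hab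
    have hc0 := (f ^ s).strictMono hcd
    set x1 := (f ^ S) a
    set x2 := (f ^ S) b
    set x3 := (f ^ S) c
    set x4 := (f ^ S) d
    set y1 := (f ^ s) a
    set y2 := (f ^ s) b
    set y3 := (f ^ s) c
    set y4 := (f ^ s) d
    have D1 := hD.2 x1 x2 x3 x4 x1 x4 le_rfl ha' (by linarith) (by linarith) hc' le_rfl
    have D2 := hD.2 x3 x4 x1 x2 x1 x4 (by linarith) hc' le_rfl le_rfl ha' (by linarith)
    set E1 := Real.exp (C * (x4 - x1)) with hE1
    have hEpos : 0 < E := Real.exp_pos _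
    have hE1pos : 0 < E1 := Real.exp_pos _
    have p1 : 0 < x2 - x1 := by linarith
    have p2 : 0 < x4 - x3 := by linarith
    have p3 : 0 < y2 - y1 := by linarith
    have p4 : 0 < y4 - y3 := by linarith
    have p5 : 0 < f x2 - f x1 := by linarith [f.strictMono ha']
    have p6 : 0 < f x4 - f x3 := by linarith [f.strictMono hc']
    constructor
    · -- (fx2-fx1)(y4-y3) ≤ E*E1*((fx4-fx3)(y2-y1))
      have h1 : ((f x2 - f x1) * (y4 - y3)) * ((x2 - x1) * (x4 - x3)) ≤ 
          (E * E1 * ((f x4 - f x3) * (y2 - y1))) * ((x2 - x1) * (x4 - x3)) := by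
        calc ((f x2 - f x1) * (y4 - y3)) * ((x2 - x1) * (x4 - x3)) 
            = ((f x2 - f x1) * (x4 - x3)) * ((x2 - x1) * (y4 - y3)) := by ring
          _ ≤ (E1 * ((f x4 - f x3) * (x2 - x1))) * (E * ((x4 - x3) * (y2 - y1))) := by
              apply mul_le_mul D1 ih1 (by positivity) (by positivity)
          _ = _ := by ring
      exact le_of_mul_le_mul_right h1 (by positivity)
    · have h1 : ((f x4 - f x3) * (y2 - y1)) * ((x2 - x1) * (x4 - x3)) ≤ 
          (E * E1 * ((f x2 - f x1) * (y4 - y3))) * ((x2 - x1) * (x4 - x3)) := by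
        calc ((f x4 - f x3) * (y2 - y1)) * ((x2 - x1) * (x4 - x3)) 
            = ((f x4 - f x3) * (x2 - x1)) * ((x4 - x3) * (y2 - y1)) := by ring
          _ ≤ (E1 * ((f x2 - f x1) * (x4 - x3))) * (E * ((x2 - x1) * (y4 - y3))) := by
              apply mul_le_mul D2 ih2 (by positivity) (by positivity)
          _ = _ := by ring
      exact le_of_mul_le_mul_right h1 (by positivity)

theorem zpow_cp (hf : ∀ x, f (x + 1) = f x + 1) (i n k : ℤ) (z : ℝ) : 
    (f ^ i) (cp f n k z) = (f ^ (i + n)) z + k := by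
  unfold cp
  rw [pow_add_int hf, zpow_add]
  rfl

theorem no_wand (hf : ∀ x, f (x + 1) = f x + 1) (hper : NoPer f) {C : ℝ} (hD : Dist f C)
    {a b : ℝ} (hW : Wand f a b) : False := by
  classical
  set ℓ : ℤ → ℝ := fun n => (f ^ n) b - (f ^ n) a with hℓ
  have lpos : ∀ n, 0 < ℓ n := fun n => sub_pos.2 ((f ^ n).strictMono hW.lt)
  have hl0 : ℓ 0 = b - a := by simp [hℓ]
  -- product lower bound along records
  have hprod : ∀ N : ℕ, ∃ n : ℤ, (N:ℤ) < |n| ∧ ℓ 0 ^ 2 ≤ Real.exp (2 * C) * (ℓ n * ℓ (-n)) := by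
    intro N
    obtain ⟨n, k, hn, h1, h2⟩ := hW.record hf hper N
    refine ⟨n, hn, ?_⟩
    have hbc : b ≤ cp f n k a := by
      have := hW.le_of_lt hf 0 0 n k (by rw [cp_zero]; exact h1)
      rwa [cp_zero] at this
    have hcd : cp f n k a < cp f n k b := (cp_lt n k).2 hW.lt
    -- the general bound for the sum
    have hsum : ∀ s : ℤ, ∀ q : ℕ, (q : ℤ) = |n| → 
        ∑ i ∈ Finset.range q, ((f ^ (s + i)) (cp f n k b) - (f ^ (s + i)) a) ≤ 2 := by
      intro s q hq
      have e1 : ∑ i ∈ Finset.range q, ((f ^ (s + i)) (cp f n k b) - (f ^ (s + i)) a) 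
          = ∑ i ∈ Finset.range q, ((f ^ (s + (i:ℤ))) (cp f n k a) - (f ^ (s + (i:ℤ))) a) 
          + ∑ i ∈ Finset.range q, ((f ^ (s + (i:ℤ) + n)) b - (f ^ (s + (i:ℤ) + n)) a) := by
        rw [← Finset.sum_add_distrib]
        apply Finset.sum_congr rfl
        intro i _
        rw [zpow_cp hf, zpow_cp hf]
        ring
      rw [e1]
      have hinj : ∀ c : ℤ, Function.Injective (fun i : ℕ => c + (i : ℤ)) := by
        intro c i j h
        simp only at h
        omega
      have b1 : ∑ i ∈ Finset.range q, ((f ^ (s + (i:ℤ))) (cp f n k a) - (f ^ (s + (i:ℤ))) a) ≤ 1 := by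
        have := hW.arcs hf h1 h2 ((Finset.range q).image (fun i : ℕ => s + (i : ℤ))) (by
          intro i hi j hj
          simp only [Finset.mem_image, Finset.mem_range] at hi hj
          obtain ⟨i', hi', rfl⟩ := hi
          obtain ⟨j', hj', rfl⟩ := hj
          rw [← hq, abs_lt]
          constructor <;> omega)
        rwa [Finset.sum_image (fun x _ y _ h => hinj s h)] at this
      have b2 : ∑ i ∈ Finset.range q, ((f ^ (s + (i:ℤ) + n)) b - (f ^ (s + (i:ℤ) + n)) a) ≤ 1 := by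
        have := hW.sum_le hf ((Finset.range q).image (fun i : ℕ => s + (i : ℤ) + n))
        rwa [Finset.sum_image (fun x _ y _ h => hinj s (by simpa using h))] at this
      linarith
    have hexp : ∀ s : ℤ, ∀ q : ℕ, (q : ℤ) = |n| → 
        Real.exp (C * ∑ i ∈ Finset.range q, ((f ^ (s + i)) (cp f n k b) - (f ^ (s + i)) a)) 
          ≤ Real.exp (2 * C) := by
      intro s q hq
      apply Real.exp_le_exp.2
      have := hsum s q hq
      nlinarith [hD.1]
    have hcpl : ∀ i : ℤ, (f ^ i) (cp f n k b) - (f ^ i) (cp f n k a) = ℓ (i + n) := by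
      intro i
      rw [zpow_cp hf, zpow_cp hf]
      simp only [hℓ]
      ring
    rcases lt_trichotomy n 0 with hneg | h0 | hpos
    · obtain ⟨q, hq⟩ : ∃ q : ℕ, (q : ℤ) = -n := ⟨n.natAbs, by omega⟩
      have hq' : (q : ℤ) = |n| := by rw [abs_of_neg hneg, hq]
      have ht := (tele hD a b _ _ hW.lt hbc hcd 0 q).2
      have he := hexp 0 q hq'
      rw [hcpl, hcpl] at ht
      have e1 : (0 : ℤ) + q + n = 0 := by omega
      have e2 : (0 : ℤ) + n = n := by ring
      have e3 : (0 : ℤ) + q = -n := by omega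
      rw [e1, e2, e3] at ht
      have e4 : (f ^ (0:ℤ)) b - (f ^ (0:ℤ)) a = ℓ 0 := rfl
      have e5 : (f ^ (-n)) b - (f ^ (-n)) a = ℓ (-n) := rfl
      rw [e4, e5] at ht
      have hpp : 0 < ℓ (-n) * ℓ n := mul_pos (lpos _) (lpos _)
      calc ℓ 0 ^ 2 = ℓ 0 * ℓ 0 := by ring
        _ ≤ _ := ht
        _ ≤ Real.exp (2 * C) * (ℓ (-n) * ℓ n) := mul_le_mul_of_nonneg_right he hpp.le
        _ = _ := by ring
    · exfalso
      rw [h0] at hn
      simp at hn
      omega
    · obtain ⟨q, hq⟩ : ∃ q : ℕ, (q : ℤ) = n := ⟨n.natAbs, by omega⟩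
      have hq' : (q : ℤ) = |n| := by rw [abs_of_pos hpos, hq]
      have ht := (tele hD a b _ _ hW.lt hbc hcd (-n) q).1
      have he := hexp (-n) q hq'
      rw [hcpl, hcpl] at ht
      have e1 : -n + (q:ℤ) + n = n := by omega
      have e2 : -n + n = 0 := by ring
      have e3 : -n + (q:ℤ) = 0 := by omega
      rw [e1, e2, e3] at ht
      have e4 : (f ^ (0:ℤ)) b - (f ^ (0:ℤ)) a = ℓ 0 := rfl
      have e5 : (f ^ (-n)) b - (f ^ (-n)) a = ℓ (-n) := rfl
      rw [e4, e5] at ht
      have hpp : 0 < ℓ n * ℓ (-n) := mul_pos (lpos _) (lpos _)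
      calc ℓ 0 ^ 2 = ℓ 0 * ℓ 0 := by ring
        _ ≤ _ := ht
        _ ≤ Real.exp (2 * C) * (ℓ n * ℓ (-n)) := mul_le_mul_of_nonneg_right he hpp.le
  -- lengths tend to zero
  have hfin : ∀ δ : ℝ, 0 < δ → {n : ℤ | δ ≤ ℓ n}.Finite := by
    intro δ hδ
    by_contra hinf
    have hinf : {n : ℤ | δ ≤ ℓ n}.Infinite := hinf
    obtain ⟨M, hM⟩ := exists_nat_gt (1 / δ)
    obtain ⟨t, ht1, ht2⟩ := hinf.exists_subset_card_eq M
    have h1 := hW.sum_le hf t
    have h2 : ∑ n ∈ t, δ ≤ ∑ n ∈ t, ((f ^ n) b - (f ^ n) a) := by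
      apply Finset.sum_le_sum
      intro i hi
      exact ht1 hi
    rw [Finset.sum_const, ht2, nsmul_eq_mul] at h2
    rw [div_lt_iff₀ hδ] at hM
    linarith
  -- choose δ
  set δ := min 1 (ℓ 0 ^ 2 / (2 * Real.exp (2 * C))) with hδ
  have hδpos : 0 < δ := by
    apply lt_min one_pos
    have := lpos 0
    positivity
  have hS := hfin δ hδpos
  obtain ⟨N, hN⟩ : ∃ N : ℕ, ∀ n ∈ {n : ℤ | δ ≤ ℓ n}, |n| ≤ N := by
    obtain ⟨B, hB⟩ := (hS.image (fun n => |n|)).bddAbove
    refine ⟨B.toNat, fun n hn => ?_⟩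
    have := hB ⟨n, hn, rfl⟩
    simp only at this
    omega
  obtain ⟨n, hn1, hn2⟩ := hprod N
  have h1 : ℓ n < δ := by
    by_contra hc
    push Not at hc
    have := hN n hc
    omega
  have h2 : ℓ (-n) < δ := by
    by_contra hc
    push Not at hc
    have := hN (-n) hc
    rw [abs_neg] at this
    omega
  have h3 : ℓ n * ℓ (-n) < δ * 1 := by
    apply mul_lt_mul'' h1 (lt_of_lt_of_le h2 (min_le_left _ _)) (lpos _).le (lpos _).le
  have h4 : δ ≤ ℓ 0 ^ 2 / (2 * Real.exp (2 * C)) := min_le_right _ _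
  have hE : 0 < Real.exp (2 * C) := Real.exp_pos _
  rw [le_div_iff₀ (by positivity)] at h4
  have h5 : Real.exp (2 * C) * (ℓ n * ℓ (-n)) < Real.exp (2 * C) * δ := by
    apply mul_lt_mul_of_pos_left _ hE
    linarith
  have h6 : 0 < ℓ 0 := lpos 0
  nlinarith

/-- **Denjoy's theorem**: bounded distortion and no periodic point imply that all orbits are
dense. -/
theorem denjoy (hf : ∀ x, f (x + 1) = f x + 1) (hper : NoPer f) {C : ℝ} (hD : Dist f C)
    (x y ε : ℝ) (hε : 0 < ε) : ∃ n k : ℤ, |(f ^ n) x + k - y| < ε := by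
  by_contra hcon
  push Not at hcon
  set O : Set ℝ := closure {z | ∃ n k : ℤ, z = cp f n k x} with hO
  have hyO : y ∉ O := by
    rw [hO, Metric.mem_closure_iff]
    push Not
    refine ⟨ε, hε, ?_⟩
    rintro _ ⟨n, k, rfl⟩
    have := hcon n k
    rw [dist_comm, Real.dist_eq]
    exact this
  have hinv : ∀ n k : ℤ, ∀ z ∈ O, cp f n k z ∈ O := by
    intro n k z hz
    have hcont : Continuous (fun x => cp f n k x) := by
      unfold cp
      exact ((f ^ n).continuous).add continuous_const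
    have h1 : cp f n k '' O ⊆ closure (cp f n k '' {z | ∃ n k : ℤ, z = cp f n k x}) := 
      image_closure_subset_closure_image hcont
    have h2 : cp f n k '' {z | ∃ n k : ℤ, z = cp f n k x} ⊆ {z | ∃ n k : ℤ, z = cp f n k x} := by
      rintro _ ⟨_, ⟨m, l, rfl⟩, rfl⟩
      exact ⟨n + m, k + l, cp_cp hf _ _ _ _ _⟩
    exact closure_mono h2 (h1 ⟨z, hz, rfl⟩)
  have hxk : ∀ n k : ℤ, cp f n k x ∈ O := fun n k => subset_closure ⟨n, k, rfl⟩
  have hclosed : IsClosed O := isClosed_closure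
  -- the gap
  set L : Set ℝ := O ∩ Set.Iic y with hL
  set R : Set ℝ := O ∩ Set.Ici y with hR
  have hLne : L.Nonempty := by
    refine ⟨cp f 0 (⌊y - x⌋) x, hxk _ _, ?_⟩
    simp only [cp, zpow_zero, RelIso.one_apply, Set.mem_Iic]
    linarith [Int.floor_le (y - x)]
  have hRne : R.Nonempty := by
    refine ⟨cp f 0 (⌈y - x⌉) x, hxk _ _, ?_⟩
    simp only [cp, zpow_zero, RelIso.one_apply, Set.mem_Ici]
    linarith [Int.le_ceil (y - x)]
  have hLb : BddAbove L := ⟨y, fun z hz => hz.2⟩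
  have hRb : BddBelow R := ⟨y, fun z hz => hz.2⟩
  have haL : sSup L ∈ L := (hclosed.inter isClosed_Iic).csSup_mem hLne hLb
  have hbR : sInf R ∈ R := (hclosed.inter isClosed_Ici).csInf_mem hRne hRb
  set a := sSup L with ha
  set b := sInf R with hb
  have hay : a < y := lt_of_le_of_ne haL.2 (fun h => hyO (h ▸ haL.1))
  have hyb : y < b := lt_of_le_of_ne hbR.2 (fun h => hyO (h ▸ hbR.1))
  have hgap : ∀ z ∈ O, z ≤ a ∨ b ≤ z := by
    intro z hz
    rcases le_total z y with h | h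
    · left; exact le_csSup hLb ⟨hz, h⟩
    · right; exact csInf_le hRb ⟨hz, h⟩
  have hab : a < b := hay.trans hyb
  apply no_wand hf hper hD (a := a) (b := b)
  refine ⟨hab, ?_⟩
  intro n k hnk
  have h1 := hgap _ (hinv n k a haL.1)
  have h2 := hgap _ (hinv n k b hbR.1)
  have hlt : cp f n k a < cp f n k b := (cp_lt n k).2 hab
  rcases h1 with h1 | h1
  · rcases h2 with h2 | h2
    · left; exact h2
    · -- (cp a, cp b) contains (a,b); so cp a = a
      exfalso
      have h3 : a ≤ cp f n k a := by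
        have h4 := hgap _ (hinv (-n) (-k) a haL.1)
        rcases h4 with h4 | h4
        · have := (cp_le (f := f) n k).2 h4
          rw [cp_cp hf] at this
          simpa [cp] using this
        · exfalso
          -- b ≤ cp (-n) (-k) a, so cp b ≤ a
          have := (cp_le (f := f) n k).2 h4
          rw [cp_cp hf] at this
          simp [cp] at this
          simp only [cp] at h2
          linarith
      have h5 : cp f n k a = a := le_antisymm h1 h3
      by_cases hn : n = 0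
      · subst hn
        rcases hnk with h | h
        · exact h rfl
        · simp [cp] at h5
          exact h (by exact_mod_cast h5)
      · apply hper n hn (-k) a
        simp only [cp] at h5
        push_cast
        linarith
  · right; exact h1

end Pool.Agent.Lib.MP_d2b992_gt.Denjoy
end

section
/-!
# A parameter without periodic points
-/
namespace Pool.Agent.Lib.MP_d2b992_gt.Rot

open Set Filter Topology
open Pool.Agent.Lib.MP_d2b992_gt.Denjoy

/-- The lift as a `CircleDeg1Lift`. -/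
def lift (f : ℝ ≃o ℝ) (hf : ∀ x, f (x + 1) = f x + 1) : CircleDeg1Lift :=
  ⟨⟨f, f.monotone⟩, hf⟩

theorem lift_pow (f : ℝ ≃o ℝ) (hf : ∀ x, f (x + 1) = f x + 1) (n : ℕ) (x : ℝ) :
    ((lift f hf) ^ n : CircleDeg1Lift) x = (f ^ (n : ℤ)) x := by
  induction n generalizing x with
  | zero => simp
  | succ n ih =>
    rw [pow_succ, CircleDeg1Lift.mul_apply, ih]
    have : ((n + 1 : ℕ) : ℤ) = (n : ℤ) + 1 := by push_cast; ring
    rw [this, zpow_add, zpow_one]
    rfl

theorem noPer_of_irrational (f : ℝ ≃o ℝ) (hf : ∀ x, f (x + 1) = f x + 1) 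
    (h : Irrational (lift f hf).translationNumber) : NoPer f := by
  have key : ∀ n : ℕ, 0 < n → ∀ k : ℤ, ∀ x : ℝ, (f ^ (n : ℤ)) x ≠ x + k := by
    intro n hn k x hx
    rw [← lift_pow f hf] at hx
    have := (lift f hf).translationNumber_of_map_pow_eq_add_int hx hn
    rw [this] at h
    apply h
    exact ⟨(k : ℚ) / n, by push_cast; rfl⟩
  intro n hn k x hx
  rcases lt_or_gt_of_ne hn with h0 | h0
  · obtain ⟨m, hm⟩ : ∃ m : ℕ, (m : ℤ) = -n := ⟨n.natAbs, by omega⟩
    apply key m (by omega) (-k) (x + k)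
    rw [← hx, hm]
    have : (f ^ (-n)) ((f ^ n) x) = x := by
      rw [zpow_neg]
      simp
    rw [this, hx]
    push_cast
    ring
  · obtain ⟨m, hm⟩ : ∃ m : ℕ, (m : ℤ) = n := ⟨n.natAbs, by omega⟩
    rw [← hm] at hx
    exact key m (by omega) k x hx

theorem exists_noPer (F : ℝ → (ℝ ≃o ℝ)) (hF : ∀ τ x, F τ (x + 1) = F τ x + 1) (τ0 : ℝ)
    (hτ0 : 0 < τ0) (hc : ContinuousOn (fun p : ℝ × ℝ => F p.1 p.2) (Icc 0 τ0 ×ˢ univ))
    (h0 : ∀ x, F 0 x = x) (h1 : ∀ x, x < F τ0 x) :
    ∃ τ ∈ Icc 0 τ0, 0 < τ ∧ NoPer (F τ) := by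
  set ρ : ℝ → ℝ := fun τ => (lift (F τ) (hF τ)).translationNumber with hρ
  have hcont : ContinuousOn ρ (Icc 0 τ0) := by
    have hu : TendstoUniformlyOn (fun (n : ℕ) τ => ((lift (F τ) (hF τ)) ^ n : CircleDeg1Lift) 0 / n)
        ρ atTop (Icc 0 τ0) := by
      rw [Metric.tendstoUniformlyOn_iff]
      intro ε hε
      obtain ⟨N, hN⟩ := exists_nat_gt (1 / ε)
      filter_upwards [eventually_ge_atTop (N + 1)] with n hn τ hτ
      have hn0 : (0 : ℝ) < n := by exact_mod_cast (by omega : 0 < n)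
      have h := (lift (F τ) (hF τ)).dist_pow_map_zero_mul_translationNumber_le n
      rw [Real.dist_eq] at h ⊢
      have e : ρ τ - ((lift (F τ) (hF τ)) ^ n : CircleDeg1Lift) 0 / n 
          = -((((lift (F τ) (hF τ)) ^ n : CircleDeg1Lift) 0 - n * ρ τ) / n) := by
        field_simp
        ring
      rw [e, abs_neg, abs_div, abs_of_pos hn0, div_lt_iff₀ hn0]
      have h2 : 1 < ε * n := by
        rw [div_lt_iff₀ hε] at hN
        have : (N : ℝ) ≤ n := by exact_mod_cast (by omega : N ≤ n)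
        nlinarith
      linarith
    apply hu.continuousOn
    apply Eventually.frequently
    filter_upwards with n
    apply ContinuousOn.div_const
    have : ∀ n : ℕ, ContinuousOn (fun τ => ((lift (F τ) (hF τ)) ^ n : CircleDeg1Lift) 0) 
        (Icc 0 τ0) := by
      intro n
      induction n with
      | zero => simpa using continuousOn_const
      | succ n ih =>
        have e : (fun τ => ((lift (F τ) (hF τ)) ^ (n + 1) : CircleDeg1Lift) 0) = 
            fun τ => F τ (((lift (F τ) (hF τ)) ^ n : CircleDeg1Lift) 0) := by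
          funext τ
          rw [pow_succ', CircleDeg1Lift.mul_apply]
          rfl
        rw [e]
        have := hc.comp (f := fun τ => (τ, ((lift (F τ) (hF τ)) ^ n : CircleDeg1Lift) 0))
          (s := Icc 0 τ0) (continuousOn_id.prodMk ih) (fun τ hτ => ⟨hτ, mem_univ _⟩)
        exact this
    exact this n
  have hρ0 : ρ 0 = 0 := by
    have : lift (F 0) (hF 0) = 1 := by
      ext x
      exact h0 x
    simp only [hρ]
    rw [this]
    exact CircleDeg1Lift.translationNumber_one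
  have hρ1 : 0 < ρ τ0 := by
    apply CircleDeg1Lift.lt_translationNumber_of_forall_add_lt
    · exact (F τ0).continuous
    · intro x
      change x + 0 < F τ0 x
      rw [add_zero]
      exact h1 x
  obtain ⟨r, hr, hr0, hr1⟩ := exists_irrational_btwn hρ1
  have hmem : r ∈ Icc (ρ 0) (ρ τ0) := by
    rw [hρ0]
    exact ⟨hr0.le, hr1.le⟩
  obtain ⟨τ, hτ, hτr⟩ := intermediate_value_Icc hτ0.le hcont hmem
  refine ⟨τ, hτ, ?_, ?_⟩
  · rcases lt_or_eq_of_le hτ.1 with h | h
    · exact h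
    · exfalso
      rw [← h, hρ0] at hτr
      rw [← hτr] at hr0
      exact lt_irrefl _ hr0
  · apply noPer_of_irrational (F τ) (hF τ)
    have : (lift (F τ) (hF τ)).translationNumber = r := hτr
    rw [this]
    exact hr

end Pool.Agent.Lib.MP_d2b992_gt.Rot
end

section
/-!
# Periodic scalar differential equations: global flow, bounded distortion, dense orbits
-/
namespace Pool.Agent.Lib.MP_d2b992_gt.Flow

open Set Filter Topology
open Pool.Agent.Lib.MP_d2b992_gt.Denjoy

theorem exists_local {v : ℝ → ℝ → ℝ} {L K : NNReal} (hL : ∀ t x, |v t x| ≤ L)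
    (hK : ∀ t, LipschitzWith K (v t)) (hc : ∀ x, Continuous fun t => v t x) (t0 x0 : ℝ) (n : ℕ) :
    ∃ α : ℝ → ℝ, α t0 = x0 ∧ ∀ t ∈ Ioo (t0 - (n + 1)) (t0 + (n + 1)), 
      HasDerivAt α (v t (α t)) t := by
  have ht0 : t0 ∈ Icc (t0 - (n + 1)) (t0 + (n + 1)) := ⟨by linarith [(n.cast_nonneg : (0:ℝ) ≤ n)],
    by linarith [(n.cast_nonneg : (0:ℝ) ≤ n)]⟩
  have hP : IsPicardLindelof v (⟨t0, ht0⟩ : Icc (t0 - ((n:ℝ) + 1)) (t0 + (n + 1))) x0 
      (L * ⟨(n:ℝ) + 1, by positivity⟩) 0 L K := by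
    refine ⟨fun t _ => (hK t).lipschitzOnWith, fun x _ => (hc x).continuousOn, 
      fun t _ x _ => by rw [Real.norm_eq_abs]; exact hL t x, ?_⟩
    simp only [add_sub_cancel_left, sub_sub_cancel, max_self, NNReal.coe_zero, sub_zero]
    exact le_rfl
  obtain ⟨α, hα1, hα2⟩ := hP.exists_eq_forall_mem_Icc_hasDerivWithinAt₀
  refine ⟨α, hα1, fun t ht => ?_⟩
  exact (hα2 t (Ioo_subset_Icc_self ht)).hasDerivAt (Icc_mem_nhds ht.1 ht.2)

theorem exists_global {v : ℝ → ℝ → ℝ} {L K : NNReal} (hL : ∀ t x, |v t x| ≤ L)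
    (hK : ∀ t, LipschitzWith K (v t)) (hc : ∀ x, Continuous fun t => v t x) (t0 x0 : ℝ) :
    ∃ α : ℝ → ℝ, α t0 = x0 ∧ ∀ t, HasDerivAt α (v t (α t)) t := by
  choose β hβ1 hβ2 using fun n : ℕ => exists_local hL hK hc t0 x0 n
  have hagree : ∀ m n : ℕ, m ≤ n → ∀ t ∈ Ioo (t0 - ((m:ℝ) + 1)) (t0 + (m + 1)), 
      β m t = β n t := by
    intro m n hmn t ht
    have hmn' : (m:ℝ) ≤ n := by exact_mod_cast hmn
    have ht0 : t0 ∈ Ioo (t0 - ((m:ℝ) + 1)) (t0 + (m + 1)) := 
      ⟨by linarith [(m.cast_nonneg : (0:ℝ) ≤ m)], by linarith [(m.cast_nonneg : (0:ℝ) ≤ m)]⟩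
    exact ODE_solution_unique_of_mem_Ioo (v := v) (s := fun _ => univ) (K := K)
      (fun t _ => (hK t).lipschitzOnWith) ht0
      (fun t ht => ⟨hβ2 m t ht, mem_univ _⟩)
      (fun t ht => ⟨hβ2 n t ⟨by linarith [ht.1], by linarith [ht.2]⟩, mem_univ _⟩)
      (by rw [hβ1, hβ1]) ht
  refine ⟨fun t => β ⌈|t - t0|⌉₊ t, ?_, ?_⟩
  · simp [hβ1]
  · intro t
    set N := ⌈|t - t0|⌉₊ + 1 with hN
    have hlt : |t - t0| < N := by
      have := Nat.le_ceil (|t - t0|)
      rw [hN]
      push_cast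
      linarith
    have hev : (fun s => β ⌈|s - t0|⌉₊ s) =ᶠ[𝓝 t] β N := by
      have hop : IsOpen {s : ℝ | |s - t0| < N} := isOpen_lt (by fun_prop) continuous_const
      have hopen : {s : ℝ | |s - t0| < N} ∈ 𝓝 t := hop.mem_nhds hlt
      filter_upwards [hopen] with s hs
      apply hagree
      · exact Nat.ceil_le.2 hs.le
      · have := Nat.le_ceil (|s - t0|)
        rw [abs_le] at this
        constructor <;> linarith [this.1, this.2]
    have hd := hβ2 N t (by
      rw [abs_lt] at hlt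
      constructor <;> linarith [hlt.1, hlt.2])
    have he : β ⌈|t - t0|⌉₊ t = β N t := hev.eq_of_nhds
    simp only [he]
    exact hd.congr_of_eventuallyEq hev

/-- Periodic field of class `C^2`. -/
structure Fld (v : ℝ → ℝ → ℝ) (T : ℝ) : Prop where
  cd : ContDiff ℝ 2 (fun p : ℝ × ℝ => v p.1 p.2)
  px : ∀ t x, v t (x + 1) = v t x
  pt : ∀ t x, v (t + T) x = v t x
  hT : 0 < T

theorem bdd_of_per {g : ℝ × ℝ → ℝ} (hg : Continuous g) {T : ℝ} (hT : 0 < T) 
    (h1 : ∀ t x, g (t, x + 1) = g (t, x)) (h2 : ∀ t x, g (t + T, x) = g (t, x)) : 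
    ∃ C : NNReal, ∀ p, |g p| ≤ C := by
  have hcomp : IsCompact (Icc (0:ℝ) T ×ˢ Icc (0:ℝ) 1) := isCompact_Icc.prod isCompact_Icc
  obtain ⟨C, hC⟩ := hcomp.exists_bound_of_continuousOn hg.continuousOn
  refine ⟨Real.toNNReal C, ?_⟩
  rintro ⟨t, x⟩
  obtain ⟨t', ht', ht2⟩ := Function.Periodic.exists_mem_Ico₀ (f := fun t => g (t, x)) 
    (fun t => h2 t x) hT t
  obtain ⟨x', hx', hx2⟩ := Function.Periodic.exists_mem_Ico₀ (f := fun x => g (t', x)) 
    (fun x => h1 t' x) one_pos x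
  have ht3 : g (t, x) = g (t', x) := ht2
  have hx3 : g (t', x) = g (t', x') := hx2
  rw [ht3, hx3]
  have := hC (t', x') ⟨Ico_subset_Icc_self ht', Ico_subset_Icc_self hx'⟩
  rw [Real.norm_eq_abs] at this
  exact this.trans (Real.le_coe_toNNReal C)

section
variable {v : ℝ → ℝ → ℝ} {T : ℝ}

theorem Fld.consts (h : Fld v T) : ∃ L K M : NNReal, (∀ t x, |v t x| ≤ L) ∧ 
    (∀ t, LipschitzWith K (v t)) ∧ (∀ t x, HasDerivAt (v t) (deriv (v t) x) x) ∧
    (∀ t, LipschitzWith M (deriv (v t))) := by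
  set V : ℝ × ℝ → ℝ := fun p => v p.1 p.2 with hV
  have hVc : ContDiff ℝ 2 V := h.cd
  obtain ⟨L, hL⟩ := bdd_of_per (g := V) hVc.continuous h.hT (fun t x => h.px t x) 
    (fun t x => h.pt t x)
  set W : ℝ × ℝ → ℝ := fun p => fderiv ℝ V p (0, 1) with hW
  have hWc : ContDiff ℝ 1 W := 
    (hVc.fderiv_right (m := 1) (by norm_num)).clm_apply contDiff_const
  have hdV : ∀ t x, HasDerivAt (v t) (W (t, x)) x := by
    intro t x
    have h1 : HasFDerivAt V (fderiv ℝ V (t, x)) (t, x) := 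
      (hVc.differentiable (by norm_num) _).hasFDerivAt
    have h2 : HasDerivAt (fun y : ℝ => ((t, y) : ℝ × ℝ)) ((0 : ℝ), (1 : ℝ)) x := 
      (hasDerivAt_const x t).prodMk (hasDerivAt_id x)
    exact h1.comp_hasDerivAt x h2
  have hWd : ∀ t x, W (t, x) = deriv (v t) x := fun t x => (hdV t x).deriv.symm
  obtain ⟨K, hK⟩ := bdd_of_per (g := W) hWc.continuous h.hT (by
    intro t x
    rw [hWd, hWd]
    have : v t = fun y => v t (y + 1) := by funext y; rw [h.px]
    conv_rhs => rw [this]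
    rw [deriv_comp_add_const]) (by
    intro t x
    rw [hWd, hWd]
    have : v (t + T) = v t := by funext y; rw [h.pt]
    rw [this])
  set W2 : ℝ × ℝ → ℝ := fun p => fderiv ℝ W p (0, 1) with hW2
  have hW2c : Continuous W2 := 
    ((hWc.fderiv_right (m := 0) (by norm_num)).clm_apply contDiff_const).continuous
  have hdW : ∀ t x, HasDerivAt (deriv (v t)) (W2 (t, x)) x := by
    intro t x
    have h1 : HasFDerivAt W (fderiv ℝ W (t, x)) (t, x) := 
      (hWc.differentiable (by norm_num) _).hasFDerivAt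
    have h2 : HasDerivAt (fun y : ℝ => ((t, y) : ℝ × ℝ)) ((0 : ℝ), (1 : ℝ)) x := 
      (hasDerivAt_const x t).prodMk (hasDerivAt_id x)
    have h3 := h1.comp_hasDerivAt x h2
    have h4 : deriv (v t) = fun y => W (t, y) := by funext y; rw [hWd]
    rw [h4]
    exact h3
  have hWd2 : ∀ t x, W2 (t, x) = deriv (deriv (v t)) x := fun t x => (hdW t x).deriv.symm
  obtain ⟨M, hM⟩ := bdd_of_per (g := W2) hW2c h.hT (by
    intro t x
    rw [hWd2, hWd2]
    have : deriv (v t) = fun y => deriv (v t) (y + 1) := by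
      funext y
      have : v t = fun y => v t (y + 1) := by funext y; rw [h.px]
      conv_lhs => rw [this]
      rw [deriv_comp_add_const]
    conv_rhs => rw [this]
    rw [deriv_comp_add_const]) (by
    intro t x
    rw [hWd2, hWd2]
    have : v (t + T) = v t := by funext y; rw [h.pt]
    rw [this])
  refine ⟨L, K, M, fun t x => hL (t, x), ?_, ?_, ?_⟩
  · intro t
    apply lipschitzWith_of_nnnorm_deriv_le (fun x => (hdV t x).differentiableAt)
    intro x
    rw [← NNReal.coe_le_coe, coe_nnnorm, Real.norm_eq_abs, ← hWd]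
    exact hK (t, x)
  · intro t x
    rw [← hWd]
    exact hdV t x
  · intro t
    apply lipschitzWith_of_nnnorm_deriv_le (fun x => (hdW t x).differentiableAt)
    intro x
    rw [← NNReal.coe_le_coe, coe_nnnorm, Real.norm_eq_abs, ← hWd2]
    exact hM (t, x)

theorem Fld.cont_t (h : Fld v T) (x : ℝ) : Continuous fun t => v t x := 
  h.cd.continuous.comp (by fun_prop : Continuous fun t : ℝ => ((t, x) : ℝ × ℝ))

theorem Fld.exists_sol (h : Fld v T) (t0 x0 : ℝ) :
    ∃ α : ℝ → ℝ, α t0 = x0 ∧ ∀ t, HasDerivAt α (v t (α t)) t := by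
  obtain ⟨L, K, M, hL, hK, -, -⟩ := h.consts
  exact exists_global hL hK h.cont_t t0 x0

theorem Fld.unique (h : Fld v T) {α β : ℝ → ℝ} (hα : ∀ t, HasDerivAt α (v t (α t)) t)
    (hβ : ∀ t, HasDerivAt β (v t (β t)) t) (t0 : ℝ) (heq : α t0 = β t0) : α = β := by
  obtain ⟨L, K, M, hL, hK, -, -⟩ := h.consts
  exact ODE_solution_unique_univ (v := v) (s := fun _ => univ) (K := K)
    (fun t => (hK t).lipschitzOnWith) (fun t => ⟨hα t, mem_univ _⟩) (fun t => ⟨hβ t, mem_univ _⟩)
    heq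

/-- The flow starting at time `0`. -/
noncomputable def Fld.P (h : Fld v T) (t x : ℝ) : ℝ := (h.exists_sol 0 x).choose t

theorem Fld.P_zero (h : Fld v T) (x : ℝ) : h.P 0 x = x := (h.exists_sol 0 x).choose_spec.1

theorem Fld.P_deriv (h : Fld v T) (x t : ℝ) : HasDerivAt (fun s => h.P s x) (v t (h.P t x)) t := 
  (h.exists_sol 0 x).choose_spec.2 t

theorem Fld.P_eq (h : Fld v T) {α : ℝ → ℝ} (hα : ∀ t, HasDerivAt α (v t (α t)) t) (t : ℝ) :
    α t = h.P t (α 0) := by
  have := h.unique hα (h.P_deriv (α 0)) 0 (by simp [h.P_zero])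
  rw [this]
  simp [h.P_zero]

theorem Fld.P_inj (h : Fld v T) {x y t : ℝ} (he : h.P t x = h.P t y) : x = y := by
  have := h.unique (h.P_deriv x) (h.P_deriv y) t he
  have h2 := congrFun this 0
  simpa [h.P_zero] using h2

theorem Fld.P_mono (h : Fld v T) (t : ℝ) : StrictMono (h.P t) := by
  intro x y hxy
  by_contra hc
  push Not at hc
  have hcont : Continuous (fun s => h.P s y - h.P s x) := by
    apply Continuous.sub
    · exact continuous_iff_continuousAt.2 fun s => (h.P_deriv y s).continuousAt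
    · exact continuous_iff_continuousAt.2 fun s => (h.P_deriv x s).continuousAt
  have h0 : 0 ≤ h.P 0 y - h.P 0 x := by simp [h.P_zero, hxy.le]
  have h1 : h.P t y - h.P t x ≤ 0 := by linarith
  obtain ⟨s, -, hs⟩ := intermediate_value_uIcc (f := fun s => h.P s y - h.P s x) (a := t) (b := 0)
    hcont.continuousOn (by
      rw [uIcc_of_le (h1.trans h0)]
      exact (⟨h1, h0⟩ : (0:ℝ) ∈ Icc _ _))
  simp only at hs
  have : h.P s y = h.P s x := by linarith
  have := h.P_inj this
  linarith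

theorem Fld.P_surj (h : Fld v T) (t : ℝ) : Function.Surjective (h.P t) := by
  intro z
  obtain ⟨α, h1, h2⟩ := h.exists_sol t z
  exact ⟨α 0, by rw [← h.P_eq h2, h1]⟩

/-- The flow map at time `t` as an order isomorphism. -/
noncomputable def Fld.Q (h : Fld v T) (t : ℝ) : ℝ ≃o ℝ := 
  (h.P_mono t).orderIsoOfSurjective _ (h.P_surj t)

theorem Fld.Q_apply (h : Fld v T) (t x : ℝ) : h.Q t x = h.P t x := rfl

theorem Fld.P_add_one (h : Fld v T) (t x : ℝ) : h.P t (x + 1) = h.P t x + 1 := by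
  have h1 : ∀ s, HasDerivAt (fun s => h.P s x + 1) (v s ((fun s => h.P s x + 1) s)) s := by
    intro s
    have := (h.P_deriv x s).add_const 1
    rw [← h.px s] at this
    exact this
  have := h.P_eq h1 t
  simp only [h.P_zero] at this
  exact this.symm

theorem Fld.P_add_T (h : Fld v T) (t x : ℝ) : h.P (t + T) x = h.P t (h.P T x) := by
  have h1 : ∀ s, HasDerivAt (fun s => h.P (s + T) x) (v s ((fun s => h.P (s + T) x) s)) s := by
    intro s
    have := (h.P_deriv x (s + T)).comp_add_const s T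
    rw [h.pt] at this
    exact this
  have := h.P_eq h1 t
  simp only [zero_add] at this
  exact this

theorem Fld.P_add_zT (h : Fld v T) (n : ℤ) (t x : ℝ) : 
    h.P (t + n * T) x = h.P t (((h.Q T) ^ n) x) := by
  have key : ∀ n : ℕ, ∀ t x, h.P (t + n * T) x = h.P t (((h.Q T) ^ (n : ℤ)) x) := by
    intro n
    induction n with
    | zero => intro t x; simp
    | succ n ih =>
      intro t x
      have e1 : t + ((n + 1 : ℕ) : ℝ) * T = (t + n * T) + T := by push_cast; ring
      have e2 : ((n + 1 : ℕ) : ℤ) = (n : ℤ) + 1 := by push_cast; ring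
      rw [e1, h.P_add_T, ih, e2, zpow_add, zpow_one]
      rfl
  obtain ⟨m, rfl | rfl⟩ := n.eq_nat_or_neg
  · exact_mod_cast key m t x
  · set y := ((h.Q T) ^ (-(m : ℤ))) x with hy
    have h1 : x = ((h.Q T) ^ (m : ℤ)) y := by
      have e : ((h.Q T) ^ (m : ℤ)) * ((h.Q T) ^ (-(m : ℤ))) = 1 := by
        rw [← zpow_add, add_neg_cancel, zpow_zero]
      have e2 := congrArg (fun g : ℝ ≃o ℝ => g x) e
      exact e2.symm
    have h2 := key m (t + ((-(m:ℤ) : ℤ) : ℝ) * T) y
    have e1 : t + ((-(m:ℤ) : ℤ) : ℝ) * T + (m : ℝ) * T = t := by push_cast; ring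
    rw [e1, ← h1] at h2
    exact h2.symm

theorem Fld.Q_dist (h : Fld v T) : ∃ C, Dist (h.Q T) C := by
  obtain ⟨L, K, M, hL, hK, hd, hM⟩ := h.consts
  have hT := h.hT
  refine ⟨T * (M * Real.exp (K * T)), ?_, ?_⟩
  · positivity
  intro a b c d A B hAa hab hbB hAc hcd hdB
  simp only [h.Q_apply]
  have hAB : A < B := by linarith
  -- growth
  have hgr : ∀ t ∈ Icc (0:ℝ) T, h.P t B - h.P t A ≤ (B - A) * Real.exp (K * T) := by
    intro t ht
    have := dist_le_of_trajectories_ODE (v := v) (K := K) (f := fun s => h.P s B) 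
      (g := fun s => h.P s A) (a := 0) (b := T) (δ := B - A) hK
      (fun s _ => (h.P_deriv B s).continuousAt.continuousWithinAt)
      (fun s _ => (h.P_deriv B s).hasDerivWithinAt)
      (fun s _ => (h.P_deriv A s).continuousAt.continuousWithinAt)
      (fun s _ => (h.P_deriv A s).hasDerivWithinAt)
      (by simp only [h.P_zero]; rw [Real.dist_eq, abs_of_pos (by linarith)]) t ht
    rw [Real.dist_eq, abs_of_pos (by linarith [h.P_mono t hAB])] at this
    refine this.trans ?_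
    apply mul_le_mul_of_nonneg_left _ (by linarith)
    apply Real.exp_le_exp.2
    have hK0 : (0:ℝ) ≤ K := K.2
    nlinarith [ht.1, ht.2]
  -- the quotients
  set q : ℝ → ℝ → ℝ → ℝ := fun x y t => (v t (h.P t y) - v t (h.P t x)) / (h.P t y - h.P t x)
    with hq
  have hqd : ∀ x y, x < y → ∀ t, ∃ ξ ∈ Ioo (h.P t x) (h.P t y), q x y t = deriv (v t) ξ := by
    intro x y hxy t
    have hlt := h.P_mono t hxy
    obtain ⟨ξ, h1, h2⟩ := exists_hasDerivAt_eq_slope (v t) (deriv (v t)) hlt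
      (fun z _ => (hd t z).continuousAt.continuousWithinAt) (fun z _ => hd t z)
    exact ⟨ξ, h1, h2.symm⟩
  have hqq : ∀ t ∈ Icc (0:ℝ) T, q a b t - q c d t ≤ M * Real.exp (K * T) * (B - A) := by
    intro t ht
    obtain ⟨ξ, ⟨h1, h2⟩, h3⟩ := hqd a b hab t
    obtain ⟨η, ⟨h4, h5⟩, h6⟩ := hqd c d hcd t
    rw [h3, h6]
    have h7 := (hM t).dist_le_mul ξ η
    rw [Real.dist_eq, Real.dist_eq] at h7
    have m1 := (h.P_mono t).monotone hAa
    have m2 := (h.P_mono t).monotone hbB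
    have m3 := (h.P_mono t).monotone hAc
    have m4 := (h.P_mono t).monotone hdB
    have h8 : |ξ - η| ≤ h.P t B - h.P t A := by
      rw [abs_le]
      constructor <;> linarith
    have h9 := hgr t ht
    have hM0 : (0:ℝ) ≤ M := M.2
    calc deriv (v t) ξ - deriv (v t) η ≤ |deriv (v t) ξ - deriv (v t) η| := le_abs_self _
      _ ≤ M * |ξ - η| := h7
      _ ≤ M * ((B - A) * Real.exp (K * T)) := mul_le_mul_of_nonneg_left (h8.trans h9) hM0
      _ = _ := by ring
  -- the logarithm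
  set F : ℝ → ℝ := fun t => Real.log (h.P t b - h.P t a) - Real.log (h.P t d - h.P t c) 
    - M * Real.exp (K * T) * (B - A) * t with hF
  have hlog : ∀ x y, x < y → ∀ t, HasDerivAt (fun t => Real.log (h.P t y - h.P t x)) (q x y t) t := by
    intro x y hxy t
    have hlt := h.P_mono t hxy
    exact ((h.P_deriv y t).sub (h.P_deriv x t)).log (by
      have : 0 < h.P t y - h.P t x := by linarith
      exact this.ne')
  have hFd : ∀ t, HasDerivAt F (q a b t - q c d t - M * Real.exp (K * T) * (B - A)) t := by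
    intro t
    have h1 := ((hlog a b hab t).sub (hlog c d hcd t)).sub 
      ((hasDerivAt_id t).const_mul (M * Real.exp (K * T) * (B - A)))
    rw [mul_one] at h1
    exact h1
  have hanti : AntitoneOn F (Icc 0 T) := by
    apply antitoneOn_of_deriv_nonpos (convex_Icc _ _)
    · exact fun t _ => (hFd t).continuousAt.continuousWithinAt
    · exact fun t _ => (hFd t).differentiableAt.differentiableWithinAt
    · intro t ht
      rw [interior_Icc] at ht
      rw [(hFd t).deriv]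
      linarith [hqq t (Ioo_subset_Icc_self ht)]
  have hfin := hanti ⟨le_rfl, hT.le⟩ ⟨hT.le, le_rfl⟩ hT.le
  simp only [hF, h.P_zero, mul_zero, sub_zero] at hfin
  have p1 : 0 < h.P T b - h.P T a := by linarith [h.P_mono T hab]
  have p2 : 0 < h.P T d - h.P T c := by linarith [h.P_mono T hcd]
  have p3 : 0 < b - a := by linarith
  have p4 : 0 < d - c := by linarith
  have hlog2 : Real.log ((h.P T b - h.P T a) * (d - c)) ≤ 
      Real.log (Real.exp (T * (M * Real.exp (K * T)) * (B - A)) * 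
        ((h.P T d - h.P T c) * (b - a))) := by
    rw [Real.log_mul p1.ne' p4.ne', Real.log_mul (Real.exp_pos _).ne' (by positivity), 
      Real.log_exp, Real.log_mul p2.ne' p3.ne']
    linarith
  exact (Real.log_le_log_iff (by positivity) (by positivity)).1 hlog2

end

/-- Continuity in the parameter and the initial value. -/
theorem cont_param {v : ℝ → ℝ → ℝ → ℝ} {T C : ℝ} (h : ∀ τ, Fld (v τ) T)
    (hv : ∀ τ τ' t x, |v τ t x - v τ' t x| ≤ C * |τ - τ'|) : 
    Continuous (fun p : ℝ × ℝ => (h p.1).P T p.2) := by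
  rw [continuous_iff_continuousAt]
  rintro ⟨τ, x⟩
  obtain ⟨L, K, M, hL, hK, hd, hM⟩ := (h τ).consts
  have hT := (h τ).hT
  have key : ∀ τ' x', |(h τ').P T x' - (h τ).P T x| ≤ 
      gronwallBound |x' - x| K (C * |τ - τ'|) T := by
    intro τ' x'
    have := dist_le_of_approx_trajectories_ODE (v := v τ) (K := K) (f := fun s => (h τ').P s x') 
      (g := fun s => (h τ).P s x) (a := 0) (b := T) (δ := |x' - x|) 
      (f' := fun s => v τ' s ((h τ').P s x')) (g' := fun s => v τ s ((h τ).P s x))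
      (εf := C * |τ - τ'|) (εg := 0) hK
      (fun s _ => ((h τ').P_deriv x' s).continuousAt.continuousWithinAt)
      (fun s _ => ((h τ').P_deriv x' s).hasDerivWithinAt)
      (fun s _ => by rw [Real.dist_eq, abs_sub_comm τ τ']; exact hv _ _ _ _)
      (fun s _ => ((h τ).P_deriv x s).continuousAt.continuousWithinAt)
      (fun s _ => ((h τ).P_deriv x s).hasDerivWithinAt)
      (fun s _ => by simp)
      (by simp only [Fld.P_zero]; rw [Real.dist_eq]) T ⟨hT.le, le_rfl⟩
    rw [Real.dist_eq, add_zero, sub_zero] at this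
    exact this
  rw [ContinuousAt, tendsto_iff_dist_tendsto_zero]
  have hlim : Tendsto (fun p : ℝ × ℝ => gronwallBound |p.2 - x| K (C * |τ - p.1|) T) 
      (𝓝 (τ, x)) (𝓝 0) := by
    have hcont : Continuous (fun p : ℝ × ℝ => gronwallBound |p.2 - x| K (C * |τ - p.1|) T) := by
      unfold gronwallBound
      split_ifs
      · fun_prop
      · fun_prop
    have := hcont.tendsto (τ, x)
    simpa [gronwallBound] using this
  apply squeeze_zero (fun p => dist_nonneg) _ hlim
  intro p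
  rw [Real.dist_eq]
  exact key p.1 p.2

/-- Some parameter gives a dense solution. -/
theorem exists_dense {v : ℝ → ℝ → ℝ → ℝ} {T C τ0 : ℝ} (h : ∀ τ, Fld (v τ) T)
    (hv : ∀ τ τ' t x, |v τ t x - v τ' t x| ≤ C * |τ - τ'|) (hτ0 : 0 < τ0)
    (h0 : ∀ t x, v 0 t x = 0) (h1 : ∀ t x, 0 ≤ v τ0 t x) (h2 : ∀ x, 0 < v τ0 0 x) : 
    ∃ τ ∈ Ioc 0 τ0, ∀ x θ t ε : ℝ, 0 < ε → ∃ n k : ℤ, 
      |(h τ).P (t + n * T) x + k - θ| < ε := by
  have hT := (h 0).hT
  obtain ⟨τ, hτ, hτp, hper⟩ := Rot.exists_noPer (fun τ => (h τ).Q T) 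
    (fun τ x => (h τ).P_add_one T x) τ0 hτ0 (cont_param h hv).continuousOn (by
      intro x
      have h3 : ∀ s, HasDerivAt (fun _ : ℝ => x) (v 0 s ((fun _ => x) s)) s := by
        intro s
        rw [h0]
        exact hasDerivAt_const s x
      exact ((h 0).P_eq h3 T).symm) (by
      intro x
      change x < (h τ0).P T x
      have hmono : Monotone (fun s => (h τ0).P s x) := by
        apply monotone_of_deriv_nonneg
        · exact fun s => ((h τ0).P_deriv x s).differentiableAt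
        · intro s
          rw [((h τ0).P_deriv x s).deriv]
          exact h1 _ _
      by_contra hc
      push Not at hc
      have hle := hmono hT.le
      simp only [(h τ0).P_zero] at hle
      have hconst : ∀ s ∈ Icc 0 T, (h τ0).P s x = x := by
        intro s hs
        have a1 := hmono hs.1
        have a2 := hmono hs.2
        simp only [(h τ0).P_zero] at a1 a2
        linarith
      -- derivative at 0 is positive
      have hd := (h τ0).P_deriv x 0
      rw [(h τ0).P_zero] at hd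
      have hpos := h2 x
      have hd' : HasDerivWithinAt (fun s => (h τ0).P s x) 0 (Icc 0 T) 0 := by
        apply (hasDerivWithinAt_const (0:ℝ) (Icc 0 T) x).congr
        · exact hconst
        · exact (h τ0).P_zero x
      have huniq := (uniqueDiffOn_Icc hT) 0 ⟨le_rfl, hT.le⟩
      have := huniq.eq_deriv _ hd.hasDerivWithinAt hd'
      linarith)
  refine ⟨τ, ⟨hτp, hτ.2⟩, ?_⟩
  intro x θ t ε hε
  obtain ⟨C', hC'⟩ := (h τ).Q_dist
  obtain ⟨z, hz⟩ := (h τ).P_surj t θ
  have hcont : Continuous ((h τ).P t) := ((h τ).Q t).continuous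
  obtain ⟨δ, hδ, hδ2⟩ := Metric.continuous_iff.1 hcont z ε hε
  obtain ⟨n, k, hnk⟩ := denjoy (f := (h τ).Q T) ((h τ).P_add_one T) hper hC' x z δ hδ
  refine ⟨n, k, ?_⟩
  have h3 := hδ2 (((h τ).Q T ^ n) x + k) (by rw [Real.dist_eq]; exact hnk)
  rw [Real.dist_eq, hz] at h3
  have h4 : (h τ).P t (((h τ).Q T ^ n) x + k) = (h τ).P (t + n * T) x + k := by
    rw [(h τ).P_add_zT]
    have := pow_add_int (f := (h τ).Q t) (fun x => (h τ).P_add_one t x) 1 k (((h τ).Q T ^ n) x)
    rw [zpow_one] at this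
    exact this
  rw [h4] at h3
  exact h3

end Pool.Agent.Lib.MP_d2b992_gt.Flow
end

section
/-!
# The vector field on the torus
-/
namespace Pool.Agent.Lib.MP_d2b992_gt

open Set Filter Topology Real
open scoped InnerProductSpace ContDiff

theorem xx_two (φ t : ℝ) : (xx φ t) 2 = sin t * cos (bet φ) := by
  simp [xx, aa, bb]

theorem inner_xx (φ t : ℝ) : ⟪xx φ t, xx φ t⟫_ℝ = 1 := by
  unfold xx
  simp only [inner_add_left, inner_add_right, inner_smul_left, inner_smul_right, in_aa, in_ab,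
    in_ba, in_bb, conj_trivial]
  linear_combination sin_sq_add_cos_sq t

theorem norm_xx (φ t : ℝ) : ‖xx φ t‖ = 1 := by
  have h := inner_xx φ t
  rw [real_inner_self_eq_norm_sq] at h
  exact (pow_eq_one_iff_of_nonneg (norm_nonneg _) two_ne_zero).1 h

theorem xx_ne (φ t : ℝ) : xx φ t ≠ 0 := by
  rw [← norm_ne_zero_iff, norm_xx]; norm_num

theorem xx_UU {φ t : ℝ} (h : xx φ t ∈ UU) : 80 * sin t ^ 2 < 1 := by
  have h1 : 100 * (xx φ t) 2 ^ 2 < (xx φ t) 0 ^ 2 + (xx φ t) 1 ^ 2 := h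
  have h2 := normsq3 (xx φ t)
  rw [norm_xx] at h2
  have h3 : 101 * (xx φ t) 2 ^ 2 < 1 := by linarith
  rw [xx_two, mul_pow] at h3
  have h4 := cos_bet φ
  have h5 : 81 / 100 ≤ cos (bet φ) ^ 2 := by nlinarith
  nlinarith [sq_nonneg (sin t)]

theorem DD_of_UU {φ t : ℝ} (h : xx φ t ∈ UU) : 4 / 5 ≤ |DD φ t| := by
  have h1 := xx_UU h
  have h2 := sin_sq_add_cos_sq t
  have h3 : |sin t| ≤ 9 / 80 := by
    apply abs_le_of_sq_le_sq _ (by norm_num)
    linarith
  have h4 : 99 / 100 ≤ |cos t| := by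
    by_contra hc
    push Not at hc
    have h5 : cos t ^ 2 = |cos t| ^ 2 := (sq_abs _).symm
    have h6 := abs_nonneg (cos t)
    nlinarith
  have h5 : |bet' φ * sin t| ≤ 3 / 4 * (9 / 80) := by
    rw [abs_mul]
    exact mul_le_mul (abs_bet'_le φ) h3 (abs_nonneg _) (by norm_num)
  have h6 : 9 / 10 * (99 / 100) ≤ |cos (bet φ) * cos t| := by
    rw [abs_mul, abs_of_pos (cos_bet_pos φ)]
    have := cos_bet φ
    nlinarith
  have h7 : |cos (bet φ) * cos t| ≤ |DD φ t| + |bet' φ * sin t| := by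
    have : cos (bet φ) * cos t = DD φ t - bet' φ * sin t := by unfold DD; ring
    rw [this]
    exact abs_sub _ _
  linarith

theorem cos_ne_of_UU {φ t : ℝ} (h : xx φ t ∈ UU) : cos t ≠ 0 := by
  intro h0
  have h1 := xx_UU h
  have h2 := sin_sq_add_cos_sq t
  rw [h0] at h2
  nlinarith

theorem rep_xx {φ t : ℝ} (h : 0 < cos t) : Rep (xx φ t) φ (cos t) (sin t) := ⟨h, rfl⟩

theorem rep_xx' {φ t : ℝ} (h : cos t < 0) : Rep (-(xx φ t)) φ (-cos t) (-sin t) := by
  refine ⟨by linarith, ?_⟩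
  unfold xx
  module

/-- Positivity of the push. -/
theorem pos_pair {y : E3} (hy : y ∈ UU) {φ ξ η : ℝ} (h : Rep y φ ξ η) : 
    0 < ⟪VV (-y), nn φ⟫_ℝ := by
  have hξ := h.1
  set c : ℝ → E3 := fun r => ξ • aa φ + (r * η) • bb φ with hc
  have hrep : ∀ r, Rep (c r) φ ξ (r * η) := fun r => ⟨hξ, rfl⟩
  have hU : ∀ r ∈ Icc (0:ℝ) 1, c r ∈ UU := by
    intro r hr
    obtain ⟨a0, a1, a2⟩ := (hrep r).coords
    obtain ⟨b0, b1, b2⟩ := h.coords
    have hU : 100 * y 2 ^ 2 < y 0 ^ 2 + y 1 ^ 2 := hy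
    have r1 : y 0 ^ 2 + y 1 ^ 2 = ξ ^ 2 + (η * sin (bet φ)) ^ 2 := by
      rw [b0, b1]; linear_combination (ξ ^ 2 + (η * sin (bet φ)) ^ 2) * sin_sq_add_cos_sq φ
    have r2 : (c r) 0 ^ 2 + (c r) 1 ^ 2 = ξ ^ 2 + (r * η * sin (bet φ)) ^ 2 := by
      rw [a0, a1]
      linear_combination (ξ ^ 2 + (r * η * sin (bet φ)) ^ 2) * sin_sq_add_cos_sq φ
    rw [r1, b2] at hU
    show 100 * (c r) 2 ^ 2 < (c r) 0 ^ 2 + (c r) 1 ^ 2
    rw [r2, a2]
    have h1 : r ^ 2 ≤ 1 := by nlinarith [hr.1, hr.2]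
    have h2 : 0 ≤ r ^ 2 := sq_nonneg r
    have h3 : (r * η * cos (bet φ)) ^ 2 = r ^ 2 * (η * cos (bet φ)) ^ 2 := by ring
    have h4 : (r * η * sin (bet φ)) ^ 2 = r ^ 2 * (η * sin (bet φ)) ^ 2 := by ring
    rw [h3, h4]
    have h5 : 0 < ξ ^ 2 := by positivity
    rcases h2.lt_or_eq with h6 | h6
    · nlinarith
    · rw [← h6]; linarith
  set f : ℝ → ℝ := fun r => ⟪VV (-(c r)), nn φ⟫_ℝ with hf
  have hcc : Continuous c := by
    simp only [hc]
    fun_prop
  have hfc : ContinuousOn f (Icc 0 1) := by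
    intro r hr
    have h1 : ContinuousAt VV (-(c r)) := (contDiffAt_VV (neg_mem_UU.2 (hU r hr))).continuousAt
    have h2 : ContinuousAt (fun r => VV (-(c r))) r := 
      ContinuousAt.comp (f := fun r => -(c r)) h1 hcc.neg.continuousAt
    exact (h2.inner continuousAt_const).continuousWithinAt
  have hne : ∀ r ∈ Icc (0:ℝ) 1, f r ≠ 0 := fun r hr => nonpar (hU r hr) (hrep r)
  have h0 : 0 < f 0 := by
    have e1 : -(c 0) = ξ • aa (φ + π) + (0:ℝ) • bb (φ + π) := by
      apply ext3 <;> simp [hc, aa]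
    have hrep' : Rep (-(c 0)) (φ + π) ξ 0 := ⟨hξ, e1⟩
    have hn := hrep'.normsq
    have hn2 : ‖-(c 0)‖ = ξ := by
      have h3 : ‖-(c 0)‖ ^ 2 = ξ ^ 2 := by rw [hn]; ring
      exact (pow_left_inj₀ (norm_nonneg _) hξ.le two_ne_zero).1 h3
    have h4 : VV (-(c 0)) = bb (φ + π) := by
      rw [VV_eq (neg_mem_UU.2 (hU 0 ⟨le_rfl, zero_le_one⟩)) hrep', hn2, zero_smul, sub_zero, 
        smul_smul, inv_mul_cancel₀ hξ.ne', one_smul]
    have h5 : f 0 = sin (bet (φ + π) + bet φ) := by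
      simp only [hf]
      rw [h4, inner3, sin_add]
      simp [bb, nn]
      linear_combination (sin (bet (φ + π)) * cos (bet φ)) * sin_sq_add_cos_sq φ
    have h6 : bet (φ + π) + bet φ = 1 / 4 := by
      unfold bet
      rw [cos_three_mul, cos_three_mul, cos_add_pi]
      ring
    rw [h5, h6]
    apply sin_pos_of_pos_of_lt_pi (by norm_num)
    linarith [pi_gt_three]
  have h1 : 0 < f 1 := by
    by_contra hcon
    push Not at hcon
    obtain ⟨r, hr, hr0⟩ := intermediate_value_Icc' zero_le_one hfc 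
      (show (0:ℝ) ∈ Icc (f 1) (f 0) from ⟨hcon, h0.le⟩)
    exact hne r hr hr0
  have e : c 1 = y := by
    simp only [hc, one_mul]
    exact h.2.symm
  simp only [hf, e] at h1
  exact h1

/-- The normalized speed of the label. -/
noncomputable def A1 (φ t : ℝ) : ℝ := 
  kap (xx φ t) * ⟪VV (xx φ t) + VV (-(xx φ t)), nn φ⟫_ℝ / |DD φ t|

theorem A1_of_kap {φ t : ℝ} (h : kap (xx φ t) = 0) : A1 φ t = 0 := by
  unfold A1; rw [h]; simp

theorem DD_pos {φ t : ℝ} (h : xx φ t ∈ UU) (hc : 0 < cos t) : 0 < DD φ t := by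
  have := nondeg h (rep_xx hc)
  unfold DD
  linarith

theorem DD_neg {φ t : ℝ} (h : xx φ t ∈ UU) (hc : cos t < 0) : DD φ t < 0 := by
  have := nondeg (neg_mem_UU.2 h) (rep_xx' (φ := φ) hc)
  unfold DD
  linarith

theorem A1_pos_side {φ t : ℝ} (h : xx φ t ∈ UU) (hc : 0 < cos t) : 
    A1 φ t * DD φ t = kap (xx φ t) * ⟪VV (-(xx φ t)), nn φ⟫_ℝ := by
  have h1 := DD_pos h hc
  unfold A1
  rw [abs_of_pos h1, div_mul_cancel₀ _ h1.ne', inner_add_left, inner_VV_nn h (rep_xx hc), zero_add]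

theorem A1_neg_side {φ t : ℝ} (h : xx φ t ∈ UU) (hc : cos t < 0) : 
    A1 φ t * DD φ t = -(kap (xx φ t) * ⟪VV (xx φ t), nn φ⟫_ℝ) := by
  have h1 := DD_neg h hc
  have h2 := inner_VV_nn (neg_mem_UU.2 h) (rep_xx' hc)
  unfold A1
  rw [abs_of_neg h1, inner_add_left, h2, add_zero, div_neg, neg_mul, div_mul_cancel₀ _ h1.ne]

theorem A1_nonneg (φ t : ℝ) : 0 ≤ A1 φ t := by
  by_cases hk : kap (xx φ t) = 0
  · rw [A1_of_kap hk]
  have hU : xx φ t ∈ UU := by
    by_contra hU
    exact hk (kap_of_not (xx_ne φ t) hU)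
  unfold A1
  apply div_nonneg _ (abs_nonneg _)
  apply mul_nonneg (kap_nonneg _)
  rw [inner_add_left]
  rcases (cos_ne_of_UU hU).lt_or_gt with hc | hc
  · have h1 := pos_pair (neg_mem_UU.2 hU) (rep_xx' hc)
    rw [neg_neg] at h1
    rw [inner_VV_nn (neg_mem_UU.2 hU) (rep_xx' hc)]
    linarith
  · have h1 := pos_pair hU (rep_xx hc)
    rw [inner_VV_nn hU (rep_xx hc)]
    linarith

theorem xx_zero_UU (φ : ℝ) : xx φ 0 ∈ UU := by
  show 100 * (xx φ 0) 2 ^ 2 < (xx φ 0) 0 ^ 2 + (xx φ 0) 1 ^ 2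
  have h := normsq3 (xx φ 0)
  rw [norm_xx] at h
  have h2 := xx_two φ 0
  rw [sin_zero, zero_mul] at h2
  rw [h2] at h ⊢
  linarith

theorem A1_zero_pos (φ : ℝ) : 0 < A1 φ 0 := by
  have hU := xx_zero_UU φ
  have hc : 0 < cos (0:ℝ) := by simp
  have h1 := pos_pair hU (rep_xx hc)
  have h2 := DD_pos hU hc
  have h3 := A1_pos_side hU hc
  have h4 : kap (xx φ 0) = 1 := kap_one (by rw [xx_two, sin_zero, zero_mul])
  rw [h4, one_mul] at h3
  rw [← h3] at h1
  exact pos_of_mul_pos_left h1 h2.le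

theorem A1_le (φ t : ℝ) : A1 φ t ≤ 5 / 2 := by
  by_cases hk : kap (xx φ t) = 0
  · rw [A1_of_kap hk]; norm_num
  have hU : xx φ t ∈ UU := by
    by_contra hU
    exact hk (kap_of_not (xx_ne φ t) hU)
  have hD := DD_of_UU hU
  unfold A1
  rw [div_le_iff₀ (by linarith)]
  have h1 : ‖VV (xx φ t)‖ = 1 := by
    have := inner_VV_self hU
    rw [real_inner_self_eq_norm_sq] at this
    exact (pow_eq_one_iff_of_nonneg (norm_nonneg _) two_ne_zero).1 this
  have h2 : ‖VV (-(xx φ t))‖ = 1 := by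
    have := inner_VV_self (neg_mem_UU.2 hU)
    rw [real_inner_self_eq_norm_sq] at this
    exact (pow_eq_one_iff_of_nonneg (norm_nonneg _) two_ne_zero).1 this
  have h3 : ‖nn φ‖ = 1 := by
    have := in_nn φ
    rw [real_inner_self_eq_norm_sq] at this
    exact (pow_eq_one_iff_of_nonneg (norm_nonneg _) two_ne_zero).1 this
  have h4 : ⟪VV (xx φ t) + VV (-(xx φ t)), nn φ⟫_ℝ ≤ 2 := by
    calc _ ≤ ‖VV (xx φ t) + VV (-(xx φ t))‖ * ‖nn φ‖ := real_inner_le_norm _ _
      _ ≤ (1 + 1) * 1 := by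
          rw [h3]
          apply mul_le_mul_of_nonneg_right _ zero_le_one
          calc _ ≤ ‖VV (xx φ t)‖ + ‖VV (-(xx φ t))‖ := norm_add_le _ _
            _ = 1 + 1 := by rw [h1, h2]
      _ = 2 := by norm_num
  have h5 := kap_nonneg (xx φ t)
  have h6 := kap_le_one (xx φ t)
  have h7 : kap (xx φ t) * ⟪VV (xx φ t) + VV (-(xx φ t)), nn φ⟫_ℝ ≤ 1 * 2 := by
    calc _ ≤ kap (xx φ t) * 2 := mul_le_mul_of_nonneg_left h4 h5
      _ ≤ 1 * 2 := by linarith
  linarith

/-! ### Periodicity -/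

theorem aa_per (φ : ℝ) : aa (φ + 2 * π) = aa φ := aa_congr (cos_add_two_pi φ) (sin_add_two_pi φ)
theorem bb_per (φ : ℝ) : bb (φ + 2 * π) = bb φ := bb_congr (cos_add_two_pi φ) (sin_add_two_pi φ)
theorem nn_per (φ : ℝ) : nn (φ + 2 * π) = nn φ := nn_congr (cos_add_two_pi φ) (sin_add_two_pi φ)
theorem bet_per (φ : ℝ) : bet (φ + 2 * π) = bet φ := bet_congr (cos_add_two_pi φ)
theorem bet'_per (φ : ℝ) : bet' (φ + 2 * π) = bet' φ := by
  unfold bet'
  rw [sin_three_mul, sin_three_mul, sin_add_two_pi]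
theorem xx_per (φ t : ℝ) : xx (φ + 2 * π) t = xx φ t := by
  unfold xx; rw [aa_per, bb_per]
theorem xx_per' (φ t : ℝ) : xx φ (t + 2 * π) = xx φ t := by
  unfold xx; rw [cos_add_two_pi, sin_add_two_pi]
theorem DD_per (φ t : ℝ) : DD (φ + 2 * π) t = DD φ t := by
  unfold DD; rw [bet_per, bet'_per]
theorem DD_per' (φ t : ℝ) : DD φ (t + 2 * π) = DD φ t := by
  unfold DD; rw [cos_add_two_pi, sin_add_two_pi]
theorem A1_per (φ t : ℝ) : A1 (φ + 2 * π) t = A1 φ t := by
  unfold A1; rw [xx_per, DD_per, nn_per]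
theorem A1_per' (φ t : ℝ) : A1 φ (t + 2 * π) = A1 φ t := by
  unfold A1; rw [xx_per', DD_per']

/-! ### Smoothness -/

theorem contDiff_xx : ContDiff ℝ ∞ (fun p : ℝ × ℝ => xx p.1 p.2) := by
  unfold xx
  have h1 := contDiff_aa
  have h2 := contDiff_bb
  fun_prop

theorem contDiff_DD : ContDiff ℝ ∞ (fun p : ℝ × ℝ => DD p.1 p.2) := by
  unfold DD
  have h1 := contDiff_bet
  have h2 := contDiff_bet'
  fun_prop

theorem contDiff_A1 : ContDiff ℝ ∞ (fun p : ℝ × ℝ => A1 p.1 p.2) := by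
  rw [contDiff_iff_contDiffAt]
  rintro ⟨φ, t⟩
  by_cases hU : xx φ t ∈ UU
  · have h1 : ContDiffAt ℝ ∞ (fun p : ℝ × ℝ => xx p.1 p.2) (φ, t) := contDiff_xx.contDiffAt
    have h2 : ContDiffAt ℝ ∞ (fun p : ℝ × ℝ => kap (xx p.1 p.2)) (φ, t) := 
      ContDiffAt.comp (g := kap) (f := fun p : ℝ × ℝ => xx p.1 p.2) (φ, t) 
        (contDiffAt_kap (xx_ne φ t)) h1
    have h3 : ContDiffAt ℝ ∞ (fun p : ℝ × ℝ => VV (xx p.1 p.2)) (φ, t) := 
      ContDiffAt.comp (g := VV) (f := fun p : ℝ × ℝ => xx p.1 p.2) (φ, t) 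
        (contDiffAt_VV hU) h1
    have h4 : ContDiffAt ℝ ∞ (fun p : ℝ × ℝ => VV (-(xx p.1 p.2))) (φ, t) := 
      ContDiffAt.comp (g := fun z => VV (-z)) (f := fun p : ℝ × ℝ => xx p.1 p.2) (φ, t) 
        (contDiffAt_VVn hU) h1
    have h5 : ContDiffAt ℝ ∞ (fun p : ℝ × ℝ => nn p.1) (φ, t) := 
      ContDiffAt.comp (g := nn) (f := fun p : ℝ × ℝ => p.1) (φ, t) 
        contDiff_nn.contDiffAt contDiffAt_fst
    have h6 : DD φ t ≠ 0 := by
      have := DD_of_UU hU
      intro h0
      rw [h0, abs_zero] at this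
      norm_num at this
    have h7 : ContDiffAt ℝ ∞ (fun p : ℝ × ℝ => |DD p.1 p.2|) (φ, t) := 
      (contDiff_DD.contDiffAt (x := (φ, t))).abs h6
    exact (h2.mul ((h3.add h4).inner ℝ h5)).div h7 (abs_ne_zero.2 h6)
  · have h1 : (fun p : ℝ × ℝ => A1 p.1 p.2) =ᶠ[𝓝 (φ, t)] fun _ => (0:ℝ) := by
      have h2 : ContinuousAt (fun p : ℝ × ℝ => xx p.1 p.2) (φ, t) := 
        contDiff_xx.continuous.continuousAt
      filter_upwards [h2.eventually (kap_eventually (xx_ne φ t) hU)] with p hp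
      exact A1_of_kap hp
    exact contDiffAt_const.congr_of_eventuallyEq h1

/-! ### The scalar equation -/

/-- The speed of the label. -/
noncomputable def AA (τ φ t : ℝ) : ℝ := hh τ * A1 φ t

theorem small (τ φ t : ℝ) : |sin (bet φ) * AA τ φ t| ≤ 1 / 8 := by
  have h1 := sin_bet_sq φ
  have h2 : |sin (bet φ)| ≤ 3 / 8 := by
    apply abs_le_of_sq_le_sq _ (by norm_num)
    linarith
  have h3 := hh_abs τ
  have h4 := A1_le φ t
  have h5 := A1_nonneg φ t
  unfold AA
  rw [abs_mul, abs_mul, abs_of_nonneg h5]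
  have h6 : |hh τ| * A1 φ t ≤ 1 / 8 * (5 / 2) := 
    mul_le_mul h3 h4 h5 (by norm_num)
  calc |sin (bet φ)| * (|hh τ| * A1 φ t) ≤ 3 / 8 * (1 / 8 * (5 / 2)) := 
        mul_le_mul h2 h6 (mul_nonneg (abs_nonneg _) h5) (by norm_num)
    _ ≤ 1 / 8 := by norm_num

theorem den_pos (τ φ t : ℝ) : 7 / 8 ≤ 1 - sin (bet φ) * AA τ φ t := by
  linarith [(abs_le.1 (small τ φ t)).2]

/-- The label as function of the great circle parameter: right-hand side. -/
noncomputable def YY (τ φ t : ℝ) : ℝ := AA τ φ t / (1 - sin (bet φ) * AA τ φ t)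

/-- Its normalization. -/
noncomputable def vv (τ t y : ℝ) : ℝ := YY τ (2 * π * y) t / (2 * π)

theorem contDiff_AA (τ : ℝ) : ContDiff ℝ ∞ (fun p : ℝ × ℝ => AA τ p.1 p.2) := 
  contDiff_const.mul contDiff_A1

theorem contDiff_YY (τ : ℝ) : ContDiff ℝ ∞ (fun p : ℝ × ℝ => YY τ p.1 p.2) := by
  have h1 : ContDiff ℝ ∞ (fun p : ℝ × ℝ => sin (bet p.1)) := by
    have := contDiff_bet
    fun_prop
  exact (contDiff_AA τ).div (contDiff_const.sub (h1.mul (contDiff_AA τ))) 
    (fun p => by linarith [den_pos τ p.1 p.2])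

theorem fld_vv (τ : ℝ) : Flow.Fld (vv τ) (2 * π) := by
  refine ⟨?_, ?_, ?_, by positivity⟩
  · have h1 : ContDiff ℝ ∞ (fun p : ℝ × ℝ => ((2 * π * p.2, p.1) : ℝ × ℝ)) := by fun_prop
    have h2 : ContDiff ℝ ∞ (fun p : ℝ × ℝ => YY τ (2 * π * p.2) p.1) := 
      ContDiff.comp (g := fun p : ℝ × ℝ => YY τ p.1 p.2) 
        (f := fun p : ℝ × ℝ => ((2 * π * p.2, p.1) : ℝ × ℝ)) (contDiff_YY τ) h1
    have h3 : ContDiff ℝ ∞ (fun p : ℝ × ℝ => vv τ p.1 p.2) := h2.div_const _
    exact h3.of_le (by norm_cast)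
  · intro t x
    unfold vv YY AA
    have : 2 * π * (x + 1) = 2 * π * x + 2 * π := by ring
    rw [this, A1_per, bet_per]
  · intro t x
    unfold vv YY AA
    rw [A1_per']

theorem vv_lip (τ σ t y : ℝ) : |vv τ t y - vv σ t y| ≤ 4 * |τ - σ| := by
  set φ := 2 * π * y with hφ
  have h1 := den_pos τ φ t
  have h2 := den_pos σ φ t
  have h3 := A1_le φ t
  have h4 := A1_nonneg φ t
  have h5 := hh_lip τ σ
  have e : vv τ t y - vv σ t y = (hh τ - hh σ) * A1 φ t / 
      ((1 - sin (bet φ) * AA τ φ t) * (1 - sin (bet φ) * AA σ φ t) * (2 * π)) := by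
    unfold vv YY
    rw [← hφ]
    have d1 : 1 - sin (bet φ) * AA τ φ t ≠ 0 := by linarith
    have d2 : 1 - sin (bet φ) * AA σ φ t ≠ 0 := by linarith
    have d3 : (π : ℝ) ≠ 0 := pi_ne_zero
    rw [div_div, div_div, div_sub_div _ _ (by positivity) (by positivity), 
      div_eq_div_iff (by positivity) (by positivity)]
    unfold AA
    ring
  have h6 : 1 ≤ (1 - sin (bet φ) * AA τ φ t) * (1 - sin (bet φ) * AA σ φ t) * (2 * π) := by
    have h7 : 49 / 64 ≤ (1 - sin (bet φ) * AA τ φ t) * (1 - sin (bet φ) * AA σ φ t) := by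
      nlinarith
    nlinarith [pi_gt_three]
  rw [e, abs_div, abs_mul, abs_of_nonneg h4, 
    abs_of_pos (by linarith : 0 < (1 - sin (bet φ) * AA τ φ t) * 
      (1 - sin (bet φ) * AA σ φ t) * (2 * π)), div_le_iff₀ (by linarith)]
  calc |hh τ - hh σ| * A1 φ t ≤ |τ - σ| * (5 / 2) := 
        mul_le_mul h5 h3 h4 (abs_nonneg _)
    _ ≤ 4 * |τ - σ| * 1 := by linarith [abs_nonneg (τ - σ)]
    _ ≤ _ := mul_le_mul_of_nonneg_left h6 (by positivity)

theorem vv_zero (t y : ℝ) : vv 0 t y = 0 := by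
  unfold vv YY AA
  rw [hh_zero]
  simp

theorem vv_nonneg {τ : ℝ} (h : 0 < τ) (t y : ℝ) : 0 ≤ vv τ t y := by
  unfold vv YY
  have h1 := den_pos τ (2 * π * y) t
  apply div_nonneg _ (by positivity)
  apply div_nonneg _ (by linarith)
  exact mul_nonneg (hh_pos h).le (A1_nonneg _ _)

theorem vv_pos {τ : ℝ} (h : 0 < τ) (y : ℝ) : 0 < vv τ 0 y := by
  unfold vv YY
  have h1 := den_pos τ (2 * π * y) 0
  apply div_pos _ (by positivity)
  apply div_pos _ (by linarith)
  exact mul_pos (hh_pos h) (A1_zero_pos _)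

/-- A parameter for which all solutions are dense. -/
theorem exists_tau {τ0 : ℝ} (h : 0 < τ0) : ∃ τ ∈ Ioc 0 τ0, ∀ φ0 t0 : ℝ, ∃ Φ : ℝ → ℝ, 
    Φ t0 = φ0 ∧ (∀ t, HasDerivAt Φ (YY τ (Φ t) t) t) ∧ 
    ∀ θ t ε : ℝ, 0 < ε → ∃ n k : ℤ, |Φ (t + n * (2 * π)) + k * (2 * π) - θ| < ε := by
  obtain ⟨τ, hτ, hd⟩ := Flow.exists_dense fld_vv vv_lip h vv_zero (vv_nonneg h) (vv_pos h)
  have hp : (0:ℝ) < 2 * π := by positivity
  refine ⟨τ, hτ, fun φ0 t0 => ?_⟩
  obtain ⟨x, hx⟩ := (fld_vv τ).P_surj t0 (φ0 / (2 * π))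
  refine ⟨fun t => 2 * π * (fld_vv τ).P t x, ?_, ?_, ?_⟩
  · simp only [hx]
    rw [mul_div_cancel₀]
    exact hp.ne'
  · intro t
    have := ((fld_vv τ).P_deriv x t).const_mul (2 * π)
    apply this.congr_deriv
    unfold vv
    rw [mul_div_cancel₀]
    exact hp.ne'
  · intro θ t ε hε
    obtain ⟨n, k, hnk⟩ := hd x (θ / (2 * π)) t (ε / (2 * π)) (by positivity)
    refine ⟨n, k, ?_⟩
    have e : 2 * π * (fld_vv τ).P (t + n * (2 * π)) x + k * (2 * π) - θ = 
        2 * π * ((fld_vv τ).P (t + n * (2 * π)) x + k - θ / (2 * π)) := by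
      field_simp
    rw [e, abs_mul, abs_of_pos hp]
    rw [lt_div_iff₀ hp] at hnk
    linarith

end Pool.Agent.Lib.MP_d2b992_gt
end

section
/-!
# The geodesics of the perturbed metrics on the torus
-/
namespace Pool.Agent.Lib.MP_d2b992_gt

open Set Filter Topology Real
open scoped InnerProductSpace ContDiff

/-! ### Solutions of the autonomous system -/

/-- Smoothness of solutions. -/
theorem smooth_of_ode {W : ℝ × ℝ → ℝ × ℝ} (hW : ContDiff ℝ ∞ W) {z : ℝ → ℝ × ℝ} 
    (hz : ∀ s, HasDerivAt z (W (z s)) s) : ContDiff ℝ ∞ z := by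
  rw [contDiff_infty]
  intro n
  induction n with
  | zero =>
    rw [Nat.cast_zero, contDiff_zero]
    exact continuous_iff_continuousAt.2 fun s => (hz s).continuousAt
  | succ n ih =>
    rw [Nat.cast_succ, contDiff_succ_iff_deriv]
    refine ⟨fun s => (hz s).differentiableAt, ?_, ?_⟩
    · intro h
      exact absurd h (by simp)
    · have : deriv z = W ∘ z := by
        funext s
        exact (hz s).deriv
      rw [this]
      exact (hW.of_le (by exact_mod_cast le_top)).comp ih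

/-- The primitive of `sin (bet ·)`. -/
noncomputable def Sg (φ : ℝ) : ℝ := ∫ u in (0:ℝ)..φ, sin (bet u)

theorem hasDerivAt_Sg (φ : ℝ) : HasDerivAt Sg (sin (bet φ)) φ := by
  have h1 : Continuous (fun u => sin (bet u)) := by
    have := contDiff_bet.continuous
    fun_prop
  exact intervalIntegral.integral_hasDerivAt_right (h1.intervalIntegrable _ _) 
    (h1.stronglyMeasurableAtFilter _ _) h1.continuousAt

/-- The arc length as a function of the great circle parameter and its inverse. -/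
theorem exists_param {τ : ℝ} {Φ : ℝ → ℝ} (hΦ : ∀ t, HasDerivAt Φ (YY τ (Φ t) t) t) : 
    ∃ θ : ℝ → ℝ, Function.Surjective θ ∧ 
      (∀ s, HasDerivAt θ (1 - sin (bet (Φ (θ s))) * AA τ (Φ (θ s)) (θ s)) s) ∧
      (∀ s, HasDerivAt (fun s => Φ (θ s)) (AA τ (Φ (θ s)) (θ s)) s) := by
  set S : ℝ → ℝ := fun t => t + Sg (Φ t) with hS
  have hSd : ∀ t, HasDerivAt S (1 - sin (bet (Φ t)) * AA τ (Φ t) t)⁻¹ t := by
    intro t
    have h1 := (hasDerivAt_id t).add ((hasDerivAt_Sg (Φ t)).comp t (hΦ t))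
    apply h1.congr_deriv
    have h2 := den_pos τ (Φ t) t
    have h3 : 1 - sin (bet (Φ t)) * AA τ (Φ t) t ≠ 0 := by linarith
    unfold YY
    field_simp
    ring
  have hlow : ∀ t, 1 / 2 ≤ (1 - sin (bet (Φ t)) * AA τ (Φ t) t)⁻¹ := by
    intro t
    have h2 := den_pos τ (Φ t) t
    have h3 := (abs_le.1 (small τ (Φ t) t)).1
    rw [one_div]
    apply inv_anti₀ (by linarith)
    linarith
  have hmono : StrictMono S := by
    apply strictMono_of_deriv_pos
    intro t
    rw [(hSd t).deriv]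
    linarith [hlow t]
  have hSc : Continuous S := continuous_iff_continuousAt.2 fun t => (hSd t).continuousAt
  have hM : Monotone (fun t => S t - t / 2) := by
    have hd : ∀ t, HasDerivAt (fun t => S t - t / 2) 
        ((1 - sin (bet (Φ t)) * AA τ (Φ t) t)⁻¹ - 1 / 2) t := fun t => 
      (hSd t).sub ((hasDerivAt_id t).div_const 2)
    apply monotone_of_deriv_nonneg
    · exact fun t => (hd t).differentiableAt
    · intro t
      rw [(hd t).deriv]
      linarith [hlow t]
  have hsurj : Function.Surjective S := by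
    apply hSc.surjective
    · apply tendsto_atTop.2
      intro b
      filter_upwards [eventually_ge_atTop (max 0 (2 * (b - S 0)))] with t ht
      have h1 := hM ((le_max_left _ _).trans ht)
      have h2 := (le_max_right _ _).trans ht
      simp only at h1
      linarith
    · apply tendsto_atBot.2
      intro b
      filter_upwards [eventually_le_atBot (min 0 (2 * (b - S 0)))] with t ht
      have h1 := hM (ht.trans (min_le_left _ _))
      have h2 := ht.trans (min_le_right _ _)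
      simp only at h1
      linarith
  let e : ℝ ≃o ℝ := StrictMono.orderIsoOfSurjective S hmono hsurj
  have he : ∀ t, e t = S t := fun t => rfl
  refine ⟨e.symm, e.symm.surjective, ?_, ?_⟩
  · intro s
    have h1 : HasDerivAt S (1 - sin (bet (Φ (e.symm s))) * AA τ (Φ (e.symm s)) (e.symm s))⁻¹ 
      (e.symm s) := hSd _
    have h2 := HasDerivAt.of_local_left_inverse (f := S) (g := e.symm) (a := s)
      e.symm.continuous.continuousAt h1 (by linarith [hlow (e.symm s)]) 
      (Eventually.of_forall fun y => by rw [← he]; exact e.apply_symm_apply y)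
    rwa [inv_inv] at h2
  · intro s
    have h1 : HasDerivAt S (1 - sin (bet (Φ (e.symm s))) * AA τ (Φ (e.symm s)) (e.symm s))⁻¹ 
      (e.symm s) := hSd _
    have h2 := HasDerivAt.of_local_left_inverse (f := S) (g := e.symm) (a := s)
      e.symm.continuous.continuousAt h1 (by linarith [hlow (e.symm s)]) 
      (Eventually.of_forall fun y => by rw [← he]; exact e.apply_symm_apply y)
    rw [inv_inv] at h2
    have h3 := (hΦ (e.symm s)).comp s h2
    apply h3.congr_deriv
    unfold YY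
    have h4 := den_pos τ (Φ (e.symm s)) (e.symm s)
    rw [div_mul_cancel₀]
    linarith

/-! ### The curve -/

theorem VP_eq (τ : ℝ) {y : E3} (hy : y ∈ UU) {φ ξ η : ℝ} (h : Rep y φ ξ η) : 
    VP τ y = VV y - (hh τ * (kap y * ⟪VV (-y), nn φ⟫_ℝ)) • nn φ := by
  unfold VP
  have e := VV_neg_frame hy h
  nth_rw 1 [e]
  module

theorem VV_xx {φ t : ℝ} (h : xx φ t ∈ UU) (hc : 0 < cos t) : VV (xx φ t) = xt φ t := by
  rw [VV_eq h (rep_xx hc), norm_xx]
  unfold xt
  rw [inv_one]
  module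

theorem VV_xx' {φ t : ℝ} (h : xx φ t ∈ UU) (hc : cos t < 0) : VV (-(xx φ t)) = -xt φ t := by
  rw [VV_eq (neg_mem_UU.2 h) (rep_xx' hc), norm_neg, norm_xx]
  unfold xt
  rw [inv_one]
  module

theorem inner_xt (φ t : ℝ) : ⟪xt φ t, xt φ t⟫_ℝ = 1 := by
  unfold xt
  simp only [inner_add_left, inner_add_right, inner_smul_left, inner_smul_right, in_aa, in_ab,
    in_ba, in_bb, conj_trivial]
  linear_combination sin_sq_add_cos_sq t

/-- Velocity of the curve. -/
noncomputable def WW (τ φ t : ℝ) : E3 := xt φ t - (AA τ φ t * DD φ t) • nn φ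

theorem WW_pos {τ φ t : ℝ} (h : xx φ t ∈ UU) (hc : 0 < cos t) : 
    WW τ φ t = VP τ (xx φ t) := by
  rw [VP_eq τ h (rep_xx hc), VV_xx h hc]
  unfold WW AA
  rw [mul_assoc, A1_pos_side h hc]

theorem WW_neg {τ φ t : ℝ} (h : xx φ t ∈ UU) (hc : cos t < 0) : 
    -WW τ φ t = VP τ (-(xx φ t)) := by
  rw [VP_eq τ (neg_mem_UU.2 h) (rep_xx' hc), VV_xx' h hc, neg_neg, kap_neg]
  unfold WW AA
  rw [mul_assoc, A1_neg_side h hc]
  module

theorem WW_flat {τ φ t : ℝ} (h : kap (xx φ t) = 0) : WW τ φ t = xt φ t := by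
  unfold WW AA
  rw [A1_of_kap h]
  simp

theorem GG_WW (τ φ t : ℝ) : GG τ (xx φ t) (WW τ φ t) (WW τ φ t) = 1 := by
  by_cases hU : xx φ t ∈ UU
  · rcases (cos_ne_of_UU hU).lt_or_gt with hc | hc
    · have h1 := GG_VP_VP τ (neg_mem_UU.2 hU)
      rw [← WW_neg hU hc, GG_neg, GG_neg_left, GG_symm, GG_neg_left, neg_neg] at h1
      exact h1
    · have h1 := GG_VP_VP τ hU
      rwa [← WW_pos hU hc] at h1
  · have hk := kap_of_not (xx_ne φ t) hU
    rw [GG_of_kap hk, WW_flat hk, inner_xt]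

variable {τ : ℝ} {Φ θ : ℝ → ℝ}

theorem hasDerivAt_xx_comp {p q : ℝ → ℝ} {p' q' s : ℝ} (hp : HasDerivAt p p' s) 
    (hq : HasDerivAt q q' s) : HasDerivAt (fun r => xx (p r) (q r)) 
      (q' • xt (p s) (q s) + p' • (sin (bet (p s)) • xt (p s) (q s) - DD (p s) (q s) • nn (p s))) 
      s := by
  have h1 := (hasDerivAt_aa (p s)).scomp s hp
  have h2 := (hasDerivAt_bb (p s)).scomp s hp
  have h3 := (hasDerivAt_cos (q s)).comp s hq
  have h4 := (hasDerivAt_sin (q s)).comp s hq
  have h5 := (h3.smul h1).add (h4.smul h2)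
  have h6 : HasDerivAt (fun r => xx (p r) (q r)) _ s := h5
  apply h6.congr_deriv
  simp only [Function.comp_apply]
  unfold xt DD
  module

theorem hasDerivAt_xt_comp {p q : ℝ → ℝ} {q' s : ℝ} (hp : HasDerivAt p 0 s) 
    (hq : HasDerivAt q q' s) : HasDerivAt (fun r => xt (p r) (q r)) 
      (-(q' • xx (p s) (q s))) s := by
  have h1 := (hasDerivAt_aa (p s)).scomp s hp
  have h2 := (hasDerivAt_bb (p s)).scomp s hp
  have h3 := ((hasDerivAt_sin (q s)).comp s hq).neg
  have h4 := (hasDerivAt_cos (q s)).comp s hq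
  have h5 := (h3.smul h1).add (h4.smul h2)
  have h6 : HasDerivAt (fun r => xt (p r) (q r)) _ s := h5
  apply h6.congr_deriv
  simp only [Function.comp_apply]
  unfold xx
  simp only [zero_smul, smul_zero, zero_add, Pi.neg_apply]
  module

/-- The data of a solution. -/
structure Sol (τ : ℝ) (p q : ℝ → ℝ) : Prop where
  hp : ∀ s, HasDerivAt p (AA τ (p s) (q s)) s
  hq : ∀ s, HasDerivAt q (1 - sin (bet (p s)) * AA τ (p s) (q s)) s

variable {p q : ℝ → ℝ}

theorem Sol.smooth (h : Sol τ p q) : ContDiff ℝ ∞ (fun s => xx (p s) (q s)) := by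
  have h1 : ContDiff ℝ ∞ (fun z : ℝ × ℝ => 
      ((AA τ z.1 z.2, 1 - sin (bet z.1) * AA τ z.1 z.2) : ℝ × ℝ)) := by
    have h2 := contDiff_AA τ
    have h3 : ContDiff ℝ ∞ (fun p : ℝ × ℝ => sin (bet p.1)) := by
      have := contDiff_bet
      fun_prop
    exact h2.prodMk (contDiff_const.sub (h3.mul h2))
  have h4 : ContDiff ℝ ∞ (fun s => ((p s, q s) : ℝ × ℝ)) := 
    smooth_of_ode h1 (fun s => (h.hp s).prodMk (h.hq s))
  exact ContDiff.comp (g := fun p : ℝ × ℝ => xx p.1 p.2) (f := fun s => ((p s, q s) : ℝ × ℝ))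
    contDiff_xx h4

theorem Sol.deriv (h : Sol τ p q) (s : ℝ) : 
    HasDerivAt (fun r => xx (p r) (q r)) (WW τ (p s) (q s)) s := by
  apply (hasDerivAt_xx_comp (h.hp s) (h.hq s)).congr_deriv
  unfold WW
  module

theorem Sol.el (h : Sol τ p q) (s : ℝ) : EL (GG τ) (fun r => xx (p r) (q r)) s := by
  have hc : Continuous (fun r => xx (p r) (q r)) := h.smooth.continuous
  have hqc : Continuous q := continuous_iff_continuousAt.2 fun s => (h.hq s).continuousAt
  have hcq : Continuous (fun r => cos (q r)) := continuous_cos.comp hqc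
  by_cases hU : xx (p s) (q s) ∈ UU
  · have hev : ∀ᶠ r in 𝓝 s, xx (p r) (q r) ∈ UU := 
      hc.continuousAt.eventually (isOpen_UU.mem_nhds hU)
    rcases (cos_ne_of_UU hU).lt_or_gt with hc0 | hc0
    · have hev2 : ∀ᶠ r in 𝓝 s, cos (q r) < 0 := hcq.continuousAt.eventually (gt_mem_nhds hc0)
      apply EL_neg (γ := fun r => xx (p r) (q r)) (xx_ne _ _)
      apply EL_VP
      · rw [norm_neg]; exact norm_xx _ _
      · filter_upwards [hev] with r hr
        exact neg_mem_UU.2 hr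
      · filter_upwards [hev, hev2] with r hr hr2
        rw [← WW_neg hr hr2]
        exact (h.deriv r).neg
    · have hev2 : ∀ᶠ r in 𝓝 s, 0 < cos (q r) := hcq.continuousAt.eventually (lt_mem_nhds hc0)
      apply EL_VP
      · exact norm_xx _ _
      · exact hev
      · filter_upwards [hev, hev2] with r hr hr2
        rw [← WW_pos hr hr2]
        exact h.deriv r
  · have hk := kap_eventually (xx_ne (p s) (q s)) hU
    apply EL_flat (γ := fun r => xx (p r) (q r)) hk hc.continuousAt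
    have hev : ∀ᶠ r in 𝓝 s, kap (xx (p r) (q r)) = 0 := hc.continuousAt.eventually hk
    have h0 : AA τ (p s) (q s) = 0 := by
      unfold AA
      rw [A1_of_kap hk.self_of_nhds, mul_zero]
    have h1 := h.hp s
    have h2 := h.hq s
    rw [h0] at h1 h2
    rw [mul_zero, sub_zero] at h2
    have h3 := hasDerivAt_xt_comp h1 h2
    rw [one_smul] at h3
    apply h3.congr_of_eventuallyEq
    filter_upwards [hev] with r hr
    rw [(h.deriv r).deriv, WW_flat hr]

theorem Sol.unit (h : Sol τ p q) (s : ℝ) : 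
    GG τ (xx (p s) (q s)) (_root_.deriv (fun r => xx (p r) (q r)) s) 
      (_root_.deriv (fun r => xx (p r) (q r)) s) = 1 := by
  rw [(h.deriv s).deriv]
  exact GG_WW _ _ _

/-! ### Density -/

theorem exists_avg {f : ℝ → ℝ} (hf : Continuous f) {a b c d e k : ℝ} (h1 : 0 ≤ f a + f b + f c)
    (h2 : f d + f e + f k ≤ 0) : ∃ x, f x = 0 := by
  have g1 : ∃ x, 0 ≤ f x := by
    by_contra hcon
    push Not at hcon
    linarith [hcon a, hcon b, hcon c]
  have g2 : ∃ x, f x ≤ 0 := by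
    by_contra hcon
    push Not at hcon
    linarith [hcon d, hcon e, hcon k]
  obtain ⟨x, hx⟩ := g1
  obtain ⟨y, hy⟩ := g2
  exact mem_range_of_exists_le_of_exists_ge hf ⟨y, hy⟩ ⟨x, hx⟩

theorem sum_three (r : ℝ) (φ : ℝ) (hb : ∀ k : ℤ, bet (φ + k * (2 * π / 3)) = r) (y : E3) : 
    ⟪y, nn φ⟫_ℝ + ⟪y, nn (φ + 2 * π / 3)⟫_ℝ + ⟪y, nn (φ - 2 * π / 3)⟫_ℝ = 3 * sin r * y 2 := by
  have h0 : bet φ = r := by have := hb 0; simpa using this
  have h1 : bet (φ + 2 * π / 3) = r := by have := hb 1; simpa using this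
  have h2 : bet (φ - 2 * π / 3) = r := by
    have := hb (-1)
    simpa [← sub_eq_add_neg] using this
  have c1 : cos (2 * π / 3) = -(1 / 2) := by
    have : 2 * π / 3 = π - π / 3 := by ring
    rw [this, cos_pi_sub, cos_pi_div_three]
  simp only [inner3, nn, h0, h1, h2, vec_zero', vec_one', vec_two']
  rw [cos_add, cos_sub, sin_add, sin_sub, c1]
  ring

theorem exists_label (y : E3) (hy : ‖y‖ = 1) : ∃ φ t, xx φ t = y := by
  have hc : Continuous (fun φ => ⟪y, nn φ⟫_ℝ) := by
    have := contDiff_nn.continuous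
    fun_prop
  have e1 : ∀ k : ℤ, bet (0 + k * (2 * π / 3)) = 3 / 8 := by
    intro k
    unfold bet
    have : 3 * (0 + k * (2 * π / 3)) = k * (2 * π) := by ring
    rw [this, cos_int_mul_two_pi]
    norm_num
  have e2 : ∀ k : ℤ, bet (π + k * (2 * π / 3)) = -(1 / 8) := by
    intro k
    unfold bet
    have : 3 * (π + k * (2 * π / 3)) = π + ((k + 1 : ℤ) : ℝ) * (2 * π) := by
      push_cast
      ring
    rw [this, cos_add_int_mul_two_pi, cos_pi]
    norm_num
  have s1 := sum_three (3 / 8) 0 e1 y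
  have s2 := sum_three (-(1 / 8)) π e2 y
  have p1 : 0 < sin (3 / 8 : ℝ) := sin_pos_of_pos_of_lt_pi (by norm_num) (by linarith [pi_gt_three])
  have p2 : sin (-(1 / 8) : ℝ) < 0 := 
    sin_neg_of_neg_of_neg_pi_lt (by norm_num) (by linarith [pi_gt_three])
  obtain ⟨φ, hφ⟩ : ∃ φ, ⟪y, nn φ⟫_ℝ = 0 := by
    rcases le_total 0 (y 2) with h | h
    · exact exists_avg hc (by rw [s1]; positivity) 
        (by rw [s2]; exact mul_nonpos_of_nonpos_of_nonneg (by linarith) h)
    · exact exists_avg hc (by rw [s2]; exact mul_nonneg_of_nonpos_of_nonpos (by linarith) h)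
        (by rw [s1]; exact mul_nonpos_of_nonneg_of_nonpos (by linarith) h)
  have hf := frame φ y
  rw [hφ, zero_smul, add_zero] at hf
  have hn : ⟪y, aa φ⟫_ℝ ^ 2 + ⟪y, bb φ⟫_ℝ ^ 2 = 1 := by
    have h1 : ⟪y, y⟫_ℝ = 1 := by rw [real_inner_self_eq_norm_sq, hy]; norm_num
    set A := ⟪y, aa φ⟫_ℝ
    set B := ⟪y, bb φ⟫_ℝ
    rw [hf] at h1
    simp only [inner_add_left, inner_add_right, inner_smul_left, inner_smul_right, in_aa, in_ab,
      in_ba, in_bb, conj_trivial] at h1
    linarith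
  obtain ⟨t, h1, h2⟩ : ∃ t, cos t = ⟪y, aa φ⟫_ℝ ∧ sin t = ⟪y, bb φ⟫_ℝ := by
    set A := ⟪y, aa φ⟫_ℝ
    set B := ⟪y, bb φ⟫_ℝ
    have hz : ‖(⟨A, B⟩ : ℂ)‖ = 1 := by
      have h3 : ‖(⟨A, B⟩ : ℂ)‖ ^ 2 = 1 := by
        rw [← Complex.normSq_eq_norm_sq, Complex.normSq_mk]
        linarith
      exact (pow_eq_one_iff_of_nonneg (norm_nonneg _) two_ne_zero).1 h3
    refine ⟨Complex.arg ⟨A, B⟩, ?_, ?_⟩
    · have := Complex.norm_mul_cos_arg ⟨A, B⟩
      rwa [hz, one_mul] at this
    · have := Complex.norm_mul_sin_arg ⟨A, B⟩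
      rwa [hz, one_mul] at this
  refine ⟨φ, t, ?_⟩
  unfold xx
  rw [h1, h2]
  exact hf.symm

theorem xx_int (φ t : ℝ) (k : ℤ) : xx (φ + k * (2 * π)) t = xx φ t := by
  have h1 : cos (φ + k * (2 * π)) = cos φ := cos_add_int_mul_two_pi φ k
  have h2 : sin (φ + k * (2 * π)) = sin φ := sin_add_int_mul_two_pi φ k
  unfold xx
  rw [aa_congr h1 h2, bb_congr h1 h2]

theorem xx_int' (φ t : ℝ) (k : ℤ) : xx φ (t + k * (2 * π)) = xx φ t := by
  unfold xx
  rw [cos_add_int_mul_two_pi, sin_add_int_mul_two_pi]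

/-- For some arbitrarily small parameters there is a dense solution through every point. -/
theorem exists_dense_curve {τ0 : ℝ} (h : 0 < τ0) : ∃ τ ∈ Ioc 0 τ0, ∀ y0 : E3, ‖y0‖ = 1 → 
    ∃ p q : ℝ → ℝ, Sol τ p q ∧ xx (p 0) (q 0) = y0 ∧
    ∀ y : E3, ‖y‖ = 1 → ∀ ε > 0, ∃ s, ‖xx (p s) (q s) - y‖ < ε := by
  obtain ⟨τ, hτ, hΦ0⟩ := exists_tau h
  refine ⟨τ, hτ, fun y0 hy0 => ?_⟩
  obtain ⟨φ0, t0, h0⟩ := exists_label y0 hy0
  obtain ⟨Φ, hΦt, hΦ, hd⟩ := hΦ0 φ0 t0
  obtain ⟨θ, hθ, hθ1, hθ2⟩ := exists_param hΦ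
  obtain ⟨s0, hs0⟩ := hθ t0
  refine ⟨fun s => Φ (θ (s + s0)), fun s => θ (s + s0), 
    ⟨fun s => (hθ2 (s + s0)).comp_add_const s s0, fun s => (hθ1 (s + s0)).comp_add_const s s0⟩, 
    ?_, ?_⟩
  · simp only [zero_add, hs0, hΦt, h0]
  intro y hy ε hε
  obtain ⟨φ, t, hφt⟩ := exists_label y hy
  have hc : Continuous (fun φ => xx φ t) := by
    unfold xx
    have h1 := contDiff_aa.continuous
    have h2 := contDiff_bb.continuous
    fun_prop
  obtain ⟨δ, hδ, hδ2⟩ := Metric.continuous_iff.1 hc φ ε hε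
  obtain ⟨n, k, hnk⟩ := hd φ t δ hδ
  obtain ⟨s, hs⟩ := hθ (t + n * (2 * π))
  refine ⟨s - s0, ?_⟩
  have h3 := hδ2 (Φ (t + n * (2 * π)) + k * (2 * π)) (by rw [Real.dist_eq]; exact hnk)
  simp only [xx_int] at h3
  rw [dist_eq_norm, hφt] at h3
  simp only [sub_add_cancel, hs, xx_int']
  exact h3

end Pool.Agent.Lib.MP_d2b992_gt
end
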